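import Pool.Agent.Helper12.RL.M_PHI
import Pool.Agent.Helper2.RL.M_LAP
import Pool.Agent.Helper24.RL.M_PER
import Pool.Agent.Helper28.RL.M_LPA
import Pool.Agent.Helper34.RL.M_PON
import Pool.Agent.Helper4.RL.M_LGR
import Pool.Agent.Helper41.RL.M_LXM
import Pool.Agent.Helper47.RL.M_PMA
import Pool.Agent.Helper47.RL.M_PRD
import Pool.Agent.Helper47.RL.M_PXR
import Pool.Agent.Helper48.RL.M_LAC
import Pool.Agent.Helper48.RL.M_LAM
import Pool.Agent.Helper6.RL.M_LIP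
import Pool.Agent.Helper61.RL.M_PE1
import Pool.Agent.Helper65.RL.M_PNA
import Pool.Agent.Helper65.RL.M_PNC
import Pool.Agent.Helper65.RL.M_PND
import Pool.Agent.Helper65.RL.M_PNW
import Pool.Agent.Helper71.RL.M_LGE
import Pool.Agent.Helper71.RL.M_LLM
import Pool.Agent.Helper72.RL.M_PPB
import Pool.Agent.Helper74.RL.M_PCS
import Pool.Agent.Helper74.RL.M_PDF
import Pool.Agent.Helper74.RL.M_PLD
import Pool.Agent.Helper74.RL.M_PMB
import Pool.Agent.Helper74.RL.M_PRT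
import Pool.Agent.Helper74.RL.M_PSP
import Pool.Agent.Helper79.RL.M_LER
import Pool.Agent.Helper80.RL.M_LGY
import Pool.Agent.Helper80.RL.M_LMX
import Pool.Agent.Helper81.RL.M_LCC
import Pool.Agent.Helper81.RL.M_LRS
import Pool.Agent.Helper81.RL.M_PCR
import Pool.Agent.Helper82.RL.M_LUF
import Pool.Agent.Helper84.RL.M_LFM
import Pool.Agent.Helper84.RL.M_LPG
import Pool.Agent.Helper84.RL.M_LWR
import Pool.Agent.Helper90.RL.M_PCB
import Pool.Agent.Helper90.RL.M_PCT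
import Pool.Agent.Helper90.RL.M_PE2
import Pool.Agent.Helper90.RL.M_PRW
import Pool.Agent.Helper92.RL.M_LTY
import Pool.Agent.Helper92.RL.M_PCI
import Pool.Agent.Helper98.RL.M_LAN
import Pool.Agent.Helper20.RG.Asm

/-!
# Project RL (MP_cb927e_an): assembly
-/

set_option autoImplicit false

namespace Pool.Agent.Helper20.RL

theorem pLGR : StLGR :=
  Pool.Agent.Helper4.RL.hLGR Pool.Agent.Helper20.RG.pPT

theorem pLMX : StLMX :=
  Pool.Agent.Helper80.RL.hLMX pLGR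

theorem pLGE : StLGE :=
  Pool.Agent.Helper71.RL.hLGE Pool.Agent.Helper20.RG.pPT pLGR

theorem pLFM : StLFM :=
  Pool.Agent.Helper84.RL.hLFM pLGR

theorem pLTY : StLTY :=
  Pool.Agent.Helper92.RL.hLTY pLGR pLMX pLFM

theorem pLER : StLER :=
  Pool.Agent.Helper79.RL.hLER pLGR pLGE pLFM

theorem pLAC : StLAC :=
  Pool.Agent.Helper48.RL.hLAC pLGR pLMX pLFM

theorem pLAN : StLAN :=
  Pool.Agent.Helper98.RL.hLAN 

theorem pLGY : StLGY :=
  Pool.Agent.Helper80.RL.hLGY Pool.Agent.Helper20.RG.pPT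

theorem pLLM : StLLM :=
  Pool.Agent.Helper71.RL.hLLM 

theorem pLPG : StLPG :=
  Pool.Agent.Helper84.RL.hLPG pLLM

theorem pLUF : StLUF :=
  Pool.Agent.Helper82.RL.hLUF pLGR pLFM pLLM

theorem pLWR : StLWR :=
  Pool.Agent.Helper84.RL.hLWR Pool.Agent.Helper20.RG.pWC Pool.Agent.Helper20.RG.pRDS

theorem pLCC : StLCC :=
  Pool.Agent.Helper81.RL.hLCC 

theorem pLPA : StLPA :=
  Pool.Agent.Helper28.RL.hLPA pLGR pLAC pLAN pLLM pLUF

theorem pLXM : StLXM :=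
  Pool.Agent.Helper41.RL.hLXM pLER pLLM pLUF

theorem pLAM : StLAM :=
  Pool.Agent.Helper48.RL.hLAM Pool.Agent.Helper20.RG.pPT

theorem pLAP : StLAP :=
  Pool.Agent.Helper2.RL.hLAP Pool.Agent.Helper20.RG.pPT Pool.Agent.Helper20.RG.pMEA Pool.Agent.Helper20.RG.pYB pLAM

theorem pLRS : StLRS :=
  Pool.Agent.Helper81.RL.hLRS 

theorem pLIP : StLIP :=
  Pool.Agent.Helper6.RL.hLIP 

theorem pPRD : StPRD :=
  Pool.Agent.Helper47.RL.hPRD Pool.Agent.Helper20.RG.pPT pLER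

theorem pPLD : StPLD :=
  Pool.Agent.Helper74.RL.hPLD Pool.Agent.Helper20.RG.pPT pLGR pPRD

theorem pPRT : StPRT :=
  Pool.Agent.Helper74.RL.hPRT pPRD pPLD pLWR

theorem pPCB : StPCB :=
  Pool.Agent.Helper90.RL.hPCB Pool.Agent.Helper20.RG.pPT pLGR pPRD pPRT

theorem pPCI : StPCI :=
  Pool.Agent.Helper92.RL.hPCI pLFM pLTY pPCB pLCC

theorem pPPB : StPPB :=
  Pool.Agent.Helper72.RL.hPPB pLLM pLUF

theorem pPXR : StPXR :=
  Pool.Agent.Helper47.RL.hPXR Pool.Agent.Helper20.RG.pPT pLLM pLUF pPRT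

theorem pPNA : StPNA :=
  Pool.Agent.Helper65.RL.hPNA 

theorem pPNB : StPNB :=
  Pool.Agent.Helper65.RL.hPNB 

theorem pPNW : StPNW :=
  Pool.Agent.Helper65.RL.hPNW 

theorem pPNC : StPNC :=
  Pool.Agent.Helper65.RL.hPNC pPNW

theorem pPND : StPND :=
  Pool.Agent.Helper65.RL.hPND pPNW

theorem pPCT : StPCT :=
  Pool.Agent.Helper90.RL.hPCT pLLM pPCI pLPA pPPB pLXM pPXR pPNA pPNB pPNC pPND

theorem pPCR : StPCR :=
  Pool.Agent.Helper81.RL.hPCR Pool.Agent.Helper20.RG.pYB pLGY pLPG pPCT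

theorem pPSP : StPSP :=
  Pool.Agent.Helper74.RL.hPSP Pool.Agent.Helper20.RG.pSC

theorem pPE2 : StPE2 :=
  Pool.Agent.Helper90.RL.hPE2 Pool.Agent.Helper20.RG.pPT Pool.Agent.Helper20.RG.pSINC Pool.Agent.Helper20.RG.pU1 pPSP

theorem pPE1 : StPE1 :=
  Pool.Agent.Helper61.RL.hPE1 Pool.Agent.Helper20.RG.pPT Pool.Agent.Helper20.RG.pSINC pPSP

theorem pPER : StPER :=
  Pool.Agent.Helper24.RL.hPER Pool.Agent.Helper20.RG.pPT Pool.Agent.Helper20.RG.pYB Pool.Agent.Helper20.RG.pMM Pool.Agent.Helper20.RG.pSYS Pool.Agent.Helper20.RG.pCHI Pool.Agent.Helper20.RG.pE1 Pool.Agent.Helper20.RG.pE2 pPE1 pPE2 Pool.Agent.Helper20.RG.pL2A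

theorem pPDF : StPDF :=
  Pool.Agent.Helper74.RL.hPDF pPER Pool.Agent.Helper20.RG.pTOP Pool.Agent.Helper20.RG.pYB

theorem pPHI : StPHI :=
  Pool.Agent.Helper12.RL.hPHI Pool.Agent.Helper20.RG.pYB Pool.Agent.Helper20.RG.pSYS pPDF

theorem pPCS : StPCS :=
  Pool.Agent.Helper74.RL.hPCS pLRS pPCR

theorem pPON : StPON :=
  Pool.Agent.Helper34.RL.hPON pLAM pLAP pPCS

theorem pPRW : StPRW :=
  Pool.Agent.Helper90.RL.hPRW Pool.Agent.Helper20.RG.pPT Pool.Agent.Helper20.RG.pMEA Pool.Agent.Helper20.RG.pYB Pool.Agent.Helper20.RG.pMM Pool.Agent.Helper20.RG.pSYS Pool.Agent.Helper20.RG.pGD Pool.Agent.Helper20.RG.pDOM Pool.Agent.Helper20.RG.pHLY pPHI pPON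

theorem pPMB : StPMB :=
  Pool.Agent.Helper74.RL.hPMB Pool.Agent.Helper20.RG.pPT pPRW pLIP

theorem pPMA : StPMA :=
  Pool.Agent.Helper47.RL.hPMA Pool.Agent.Helper20.RG.pPT Pool.Agent.Helper20.RG.pCOV Pool.Agent.Helper20.RG.pCAP pPMB Pool.Agent.Helper20.RG.pRES Pool.Agent.Helper20.RG.pFIN

end Pool.Agent.Helper20.RL
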