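import Pool.Agent.Helper20.RG.St1
import Pool.Agent.Helper20.RG.Defs2

/-!
# Project RL (MP_cb927e_an): the lacunary maximal operator for an arbitrary convex curve, `3/2 < p < 2`

Definitions.  Everything else is taken from project RG (`Pool.Agent.Helper20.RG.Defs`, `Defs2`).
-/

set_option autoImplicit false

open MeasureTheory Set Filter Topology
open scoped ENNReal RealInnerProductSpace

namespace Pool.Agent.Helper20.RL

open Pool.Agent.Helper68.LM (Pl BB Bd Av HL ft fm DQ)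
open Pool.Agent.Helper20.RG

/-- The cell of the skew dyadic grid which contains `y`: the first coordinate at scale `2^a`, the linear form
`pr s` at scale `2^b`.  Its area is `2^(a+b)`. -/
def RQ (s : ℝ) (a b : ℤ) (y : Pl) : Set Pl :=
  {z | ⌊z 0 / (2 : ℝ) ^ a⌋ = ⌊y 0 / (2 : ℝ) ^ a⌋ ∧ ⌊pr s z / (2 : ℝ) ^ b⌋ = ⌊pr s y / (2 : ℝ) ^ b⌋}

/-- `F` has density at least `θ` in the cell `RQ s a b y` -/
def Rich (F : Set Pl) (s : ℝ) (a b : ℤ) (θ : ℝ) (y : Pl) : Prop :=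
  ENNReal.ofReal (θ * (2 : ℝ) ^ (a + b)) ≤ volume (F ∩ RQ s a b y)

/-- the density of `F` in all squares of half side at least one is at most `D` (up to the factor `4`) -/
def Ctl (D : ℝ) (F : Set Pl) : Prop :=
  ∀ (y : Pl) (k : ℕ), volume (F ∩ Sq y ((2 : ℝ) ^ k)) ≤ ENNReal.ofReal (D * (4 : ℝ) ^ k)

/-- bounded measurable set -/
def BM (F : Set Pl) : Prop := MeasurableSet F ∧ Bornology.IsBounded F

/-- number of steps of the ladder -/
def Mt (u : ℕ) : ℕ := 16 * u * (3 * u + 1)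

/-- the ladder of lengths: `-u`, then `om u b l`, `b = 0, 1, ..`, `l < 16 u` -/
def lad (u : ℕ) : ℕ → ℤ
  | 0 => -(u : ℤ)
  | t + 1 => (om u (t / (16 * u)) (t % (16 * u)) : ℤ)

/-- decreasing thresholds, from `η` to more than `η/2` -/
noncomputable def thr (u : ℕ) (η : ℝ) (t : ℕ) : ℝ := η * (1 - (t : ℝ) / (2 * ((Mt u : ℝ) + 2)))

/-- the cell of length `2^(k + lad u τ)` and width `2^(k-m)` is rich, the next one is not (if `τ ≤ Mt u`) -/
def UU (F : Set Pl) (s : ℝ) (m u : ℕ) (η : ℝ) (τ : ℕ) (k : ℤ) : Set Pl :=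
  {y | Rich F s (k + lad u τ) (k - (m : ℤ)) (thr u η τ) y ∧
    (τ ≤ Mt u → ¬ Rich F s (k + lad u (τ + 1)) (k - (m : ℤ)) (thr u η (τ + 1)) y)}

/-- moreover all the previous cells are rich -/
def CU (F : Set Pl) (s : ℝ) (m u : ℕ) (η : ℝ) (τ : ℕ) (k : ℤ) : Set Pl :=
  {y | y ∈ UU F s m u η τ k ∧ ∀ t ≤ τ, Rich F s (k + lad u t) (k - (m : ℤ)) (thr u η t) y}

/-- the chord of `x` at scale `k` passes near a point of `V` -/
def Hit (s : ℝ) (c : Pl) (m u : ℕ) (k : ℤ) (V : Set Pl) (x : Pl) : Prop :=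
  ∃ y ∈ V, |(x - (2 : ℝ) ^ k • c) 0 - y 0| ≤ 3 * (2 : ℝ) ^ (k - (u : ℤ)) ∧
    |pr s (x - (2 : ℝ) ^ k • c) - pr s y| ≤ 2 * (2 : ℝ) ^ (k - (m : ℤ))

/-- `V` is a union of disjoint cells; the cell of `z ∈ V` is `RQ s (A z) (B z) z`; `F` has density at
least `θ` in each of them. -/
structure Fml (F : Set Pl) (s θ : ℝ) (V : Set Pl) (A B : Pl → ℤ) : Prop where
  inv : ∀ z ∈ V, ∀ z' ∈ RQ s (A z) (B z) z, z' ∈ V ∧ A z' = A z ∧ B z' = B z
  rich : ∀ z ∈ V, Rich F s (A z) (B z) θ z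

/-- the typical points of `F ∩ V`: `F` has density at least `θ/2` in all the shorter cells of the same width -/
def Ty (F : Set Pl) (s θ : ℝ) (V : Set Pl) (A B : Pl → ℤ) : Set Pl :=
  {z | z ∈ F ∧ z ∈ V ∧ ∀ a ≤ A z, Rich F s a (B z) (θ / 2) z}

/-- points of `F` with a chain of `n` scales `k₁ > k₂ > ..`, all at most `k`, with gaps at least `Δ`, such that the
point lies in all the sets `U k_i` -/
def Ch (F : Set Pl) (U : ℤ → Set Pl) (Δ : ℤ) : ℕ → ℤ → Set Pl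
  | 0, _ => F
  | n + 1, k => {z | z ∈ F ∧ ∃ k₁ ≤ k, z ∈ U k₁ ∧ z ∈ Ch F U Δ n (k₁ - Δ)}

/-- bound for the number of rich directions at a typical point -/
noncomputable def M0 (κ : ℝ) (u b : ℕ) (A σ D θ : ℝ) : ℝ :=
  κ * ns u b A σ * (1 + u * Real.sqrt (D / θ ^ 3))

/-- numerical situation: `m₁` hits, threshold `η` -/
def Nm (u : ℕ) (η m₁ : ℝ) : Prop :=
  0 < η ∧ η ≤ 1 ∧ 1 / (u : ℝ) ^ 10 ≤ m₁ * η ∧ 1 / (u : ℝ) ^ 3 ≤ m₁ ∧ m₁ ≤ (2 : ℝ) ^ u

/-- points of `E` such that all squares around them of half side at least `2^k` have small density -/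
def Ck (E : Set Pl) (D : ℝ) (k : ℤ) : Set Pl :=
  {z | z ∈ E ∧ ∀ k' : ℤ, k ≤ k' → volume (E ∩ Sq z ((2 : ℝ) ^ k')) ≤ ENNReal.ofReal (D * (4 : ℝ) ^ k')}

/-- the points which become controlled between the scales `(l-4) 2^i` and `l 2^i` -/
def Fa (E : Set Pl) (D : ℝ) (i : ℕ) (l : ℤ) : Set Pl :=
  Ck E D (l * 2 ^ i) \ Ck E D ((l - 4) * 2 ^ i)

/-- restricted weak type for the lacunary maximal operator of the measure `ν` -/
def RWm (ν : Measure Pl) (q : ℝ) : Prop :=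
  ∃ C : ℝ, 0 < C ∧ ∀ Λ : ℝ, 0 < Λ → ∀ E : Set Pl, BM E →
    volume {x | ENNReal.ofReal Λ < ⨆ k : ℤ, ∫⁻ y, E.indicator 1 (x - (2 : ℝ) ^ k • y) ∂ν} ≤
      ENNReal.ofReal (C * Λ ^ (-q)) * volume E

end Pool.Agent.Helper20.RL
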