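import Pool.Agent.Helper20.RL.Defs

/-!
# Project RL (MP_cb927e_an): interface statements, part 1 (skew grids, typical points, density bound)

Every statement is a `Prop` proved in a module of its own.  Complete proofs are in the docstrings.  `C` are absolute
constants.  `StPT`, `StSINC`, `StMEA`, `StYB`, `StL2B`, `StWC`, `StRDS`, .. are statements of project RG
(`Pool.Agent.Helper20.RG.St1`, proved), used as hypotheses.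
-/

set_option autoImplicit false

open MeasureTheory Set Filter Topology
open scoped ENNReal RealInnerProductSpace

namespace Pool.Agent.Helper20.RL

open Pool.Agent.Helper68.LM (Pl BB Bd Av HL ft fm DQ)
open Pool.Agent.Helper20.RG

/-! ## Skew dyadic grids -/

/-- LGR (about 150 lines), the grid.  `y ↦ (y 0, pr s y)` is a shear (`PT`: Fubini; for fixed `y 0` the condition on `y 1` is an
interval of length `2^b`), so the area is `2^a 2^b`.  Nested: `⌊t / 2^a'⌋ = ⌊⌊t / 2^a⌋ / 2^(a'-a)⌋` for `a ≤ a'`.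
Fourth: two numbers with the same floor differ by less than one; `z 1 - y 1 = (pr s z - pr s y) + s (z 0 - y 0)`.  Last: `T` is the
preimage of a subset of `ℤ × ℤ` (countable, every set is measurable) under the measurable map `z ↦ (⌊z 0/2^a⌋, ⌊pr s z/2^b⌋)`.
Hypotheses: hPT. -/
def StLGR : Prop :=
  (∀ (s : ℝ) (a b : ℤ) (y : Pl), MeasurableSet (RQ s a b y) ∧
    volume (RQ s a b y) = ENNReal.ofReal ((2 : ℝ) ^ (a + b)) ∧ y ∈ RQ s a b y) ∧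
  (∀ (s : ℝ) (a b : ℤ) (y z : Pl), z ∈ RQ s a b y → RQ s a b z = RQ s a b y) ∧
  (∀ (s : ℝ) (a b a' b' : ℤ) (y : Pl), a ≤ a' → b ≤ b' → RQ s a b y ⊆ RQ s a' b' y) ∧
  (∀ (s : ℝ) (a b : ℤ) (y z : Pl), |s| ≤ 1 → z ∈ RQ s a b y →
    |z 0 - y 0| < (2 : ℝ) ^ a ∧ |pr s z - pr s y| < (2 : ℝ) ^ b ∧
      |z 1 - y 1| < (2 : ℝ) ^ a + (2 : ℝ) ^ b) ∧
  (∀ (s : ℝ) (a b : ℤ) (T : Set Pl), (∀ y ∈ T, RQ s a b y ⊆ T) → MeasurableSet T)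

/-- LMX (about 170 lines), maximal selection.  For `k ∈ T` let `Ω_k = {z ∈ P k | ∀ k' ∈ T, k < k' → z ∉ P k'}`.  It is a union of cells
`RQ s (a k) (b k) y`: let `z ∈ Ω_k`, `z' ∈ RQ s (a k) (b k) z`; then `z' ∈ P k`, and if `z' ∈ P k'`, `k < k' ∈ T`, then `z` is in the cell of `z'` at
`k'` (`a k ≤ a k'`, `b k ≤ b k'`, nested), so `z ∈ P k'`, a contradiction.  The `Ω_k` are disjoint, and `X ⊆ ⋃ Ω_k` (`T` is bounded above).  In a cell contained in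
`Ω_k` every point of `X` satisfies the condition in the hypothesis, so `vol(X ∩ cell) ≤ c vol(Y ∩ cell)`.  Sum over the (countably many)
different cells in `Ω_k` (`measure_iUnion_le` on the left; on the right the cells are disjoint and measurable, so
`∑ vol(Y ∩ cell) = vol(Y ∩ Ω_k)` for every set `Y`, use `volume.restrict Y`), then over `k`.  Hypotheses: hLGR. -/
def StLMX : Prop :=
  ∀ (s : ℝ) (a b : ℤ → ℤ) (T : Set ℤ) (P : ℤ → Set Pl) (X Y : Set Pl) (c : ℝ≥0∞), Monotone a →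
    Monotone b → BddAbove T → (∀ k ∈ T, ∀ y ∈ P k, RQ s (a k) (b k) y ⊆ P k) → X ⊆ ⋃ k ∈ T, P k →
    (∀ k ∈ T, ∀ y ∈ P k,
      volume ({z | z ∈ X ∧ ∀ k' ∈ T, k < k' → z ∉ P k'} ∩ RQ s (a k) (b k) y) ≤
        c * volume (Y ∩ RQ s (a k) (b k) y)) →
    volume X ≤ c * volume (Y ∩ ⋃ k ∈ T, P k)

/-- LGE (about 120 lines), enlargement of a union of cells.  If `|x 0 - y 0| ≤ p 2^a` then the integers `⌊x 0/2^a⌋`, `⌊y 0/2^a⌋` differ by at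
most `p`, similarly for `pr s`.  Let `v_ij = pt (i 2^a) (j 2^b + s i 2^a)`, so `v_ij 0 = i 2^a`, `pr s v_ij = j 2^b`: for some `|i| ≤ p`, `|j| ≤ q` the point
`x + v_ij` is in the cell of `y`, hence in `V`.  So the set is contained in the union of `(2p+1)(2q+1)` translates of `V`.
Hypotheses: hPT, hLGR. -/
def StLGE : Prop :=
  ∀ (s : ℝ) (a b : ℤ) (p q : ℕ) (V : Set Pl), (∀ y ∈ V, RQ s a b y ⊆ V) →
    volume {x | ∃ y ∈ V, |x 0 - y 0| ≤ p * (2 : ℝ) ^ a ∧ |pr s x - pr s y| ≤ q * (2 : ℝ) ^ b} ≤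
      ENNReal.ofReal ((2 * p + 1) * (2 * q + 1)) * volume V

/-- LFM (about 120 lines).  For fixed `a`, `b` the set `V_ab = {z ∈ V | A z = a, B z = b}` is a union of cells `RQ s a b z` (`inv`), so measurable;
`V` is their countable union.  For all `a`, `b`, `θ` the set `{z | Rich F s a b θ z}` is a union of cells `RQ s a b z`, so measurable; on `V_ab` `Ty` is the
intersection of `F` with countably many such sets.  Last: sum `vol(cell) ≤ (1/θ) vol(F ∩ cell)` over the different cells of `V_ab`, and over `a`, `b`.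
Hypotheses: hLGR. -/
def StLFM : Prop :=
  (∀ (F : Set Pl) (s : ℝ) (a b : ℤ) (θ : ℝ), MeasurableSet {z | Rich F s a b θ z} ∧
    ∀ y z : Pl, z ∈ RQ s a b y → (Rich F s a b θ z ↔ Rich F s a b θ y)) ∧
  ∀ (F : Set Pl) (s θ : ℝ) (V : Set Pl) (A B : Pl → ℤ), MeasurableSet F → Fml F s θ V A B → 0 < θ →
    (∀ a b : ℤ, MeasurableSet {z | z ∈ V ∧ A z = a ∧ B z = b}) ∧ MeasurableSet V ∧
    MeasurableSet (Ty F s θ V A B) ∧ volume V ≤ ENNReal.ofReal (1 / θ) * volume (F ∩ V)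

/-- LTY (about 170 lines), at least half of the points are typical.  Fix `β : ℤ` and let `V_β = {z ∈ V | B z = β}`, `At = {z ∈ F ∩ V_β | z ∉ Ty}`.  For `z ∈ At` there
is `a ≤ A z` with `¬ Rich F s a β (θ/2) z`.  For `z ∈ V_β`: `θ 2^(A z + β) ≤ vol F < ∞`, so `A z ≤ a₁`.  LMX with `a k = k`, `b k = β`, `T = {k ≤ a₁}`,
`P k = {z ∈ V_β | k ≤ A z ∧ ¬ Rich F s k β (θ/2) z}` (a union of cells `RQ s k β z`, as these are contained in the cell of `z` in `V`), `X = At`, `Y = V_β`, `c = θ/2`: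
`vol(X ∩ cell) ≤ vol(F ∩ cell) ≤ (θ/2) 2^(k+β) = (θ/2) vol(V_β ∩ cell)`.  So `vol At ≤ (θ/2) vol V_β ≤ ½ vol(F ∩ V_β)` by LFM for the subfamily `V_β` (`Fml` holds for it).  Sum over
`β` (the `V_β` are measurable): `vol(F ∩ V \ Ty) ≤ ½ vol(F ∩ V)`, all finite.  Hypotheses: hLGR, hLMX, hLFM. -/
def StLTY : Prop :=
  ∀ (F : Set Pl) (s θ : ℝ) (V : Set Pl) (A B : Pl → ℤ), MeasurableSet F → volume F ≠ ∞ → 0 < θ →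
    Fml F s θ V A B → volume (F ∩ V) ≤ 2 * volume (Ty F s θ V A B)

/-- LER (about 150 lines).  For `β : ℤ` let `W_β` be the union of the cells `RQ s a β z`, `z ∈ Z`, `B z = β`.  It is a union of cells in which `F` has density `≥ θ'`, and
`W_β ⊆ V_β = {z ∈ V | B z = β}` (`a ≤ A z`, `inv`).  The part of the set with `B z = β` has measure at most `(2p+1)(2q+1) vol W_β ≤ (2p+1)(2q+1)/θ' vol(F ∩ W_β)` (LGE; sum over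
the cells).  Sum over `β`; the `V_β` are disjoint and measurable.  Hypotheses: hLGR, hLGE, hLFM. -/
def StLER : Prop :=
  ∀ (F : Set Pl) (s θ θ' : ℝ) (V Z : Set Pl) (A B : Pl → ℤ) (a : ℤ) (p q : ℕ), MeasurableSet F →
    Fml F s θ V A B → 0 < θ → 0 < θ' → Z ⊆ V → (∀ z ∈ Z, a ≤ A z ∧ Rich F s a (B z) θ' z) →
    volume {x | ∃ z ∈ Z, |x 0 - z 0| ≤ p * (2 : ℝ) ^ a ∧ |pr s x - pr s z| ≤ q * (2 : ℝ) ^ (B z)} ≤
      ENNReal.ofReal ((2 * p + 1) * (2 * q + 1) / θ') * volume (F ∩ V)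

/-! ## Alternation -/

/-- LAC (about 250 lines), chains.  `Δ = w' - w`, `P_k y = RQ s (k+w) (k-m) y`, `P⁺_k y = RQ s (k+w') (k-m) y`, `H_k = {y | Rich F s (k+w) (k-m) β y}`,
`Lo_k = {y | ¬ Rich F s (k+w') (k-m) α y}`; `U k ⊆ H_k ∩ Lo_k`.  `Ch .. n k` is monotone in `k`.
CLAIM (n): for all `k` and `y ∈ H_k`: `vol(Ch n (k-Δ) ∩ P_k y) ≤ (α/β)^n vol(F ∩ P_k y)`.  `n = 0` is trivial.  Step: let `X = Ch (n+1) (k-Δ) ∩ P_k y`.  LMX with `T = {k' ≤ k-Δ}`, cells `P⁺_k'`,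
sets `Lo_k'`, `Y = P_k y`, `c = (α/β)^n α`.  Let `k' ≤ k-Δ`, `z₀ ∈ Lo_k'`; if the cell `P⁺_k' z₀` meets `P_k y` it is contained in it.  Let `X'` be the set of the `z ∈ X ∩ P⁺_k' z₀` which lie in no `Lo_k''`, `k' < k'' ≤ k-Δ`.
For `z ∈ X'` there is `k₁ ≤ k-Δ` with `z ∈ U k₁ ⊆ Lo_k₁`, `z ∈ Ch n (k₁-Δ)`, so `k₁ ≤ k'`.  To bound `vol X'` use LMX again with `T' = {k₁ ≤ k'}`, cells `P_k₁`, sets `H_k₁`, `Y' = F ∩ P⁺_k' z₀`, `c = (α/β)^n`: let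
`k₁ ≤ k'`, `z₁ ∈ H_k₁`, and let `z ∈ X' ∩ P_k₁ z₁` lie in no `H_k''`, `k₁ < k'' ≤ k'`; then `P_k₁ z₁ ⊆ P⁺_k' z₀`, and the `k₂ ≤ k'` with `z ∈ U k₂ ⊆ H_k₂`, `z ∈ Ch n (k₂-Δ)` satisfies `k₂ ≤ k₁`, so
`z ∈ Ch n (k₁-Δ)`; CLAIM (n) gives `≤ (α/β)^n vol(F ∩ P_k₁ z₁)`.  So `vol X' ≤ (α/β)^n vol(F ∩ P⁺_k' z₀) ≤ (α/β)^n α vol(P⁺_k' z₀)`.  Altogether `vol X ≤ (α/β)^n α vol(P_k y) ≤ (α/β)^(n+1) vol(F ∩ P_k y)`.
END: LMX with `T = {k ≤ K}`, cells `P_k`, sets `U k`, `X = Ch (n+1) K`, `Y = F`: `z ∈ X ∩ P_k y`, `y ∈ U k`, in no `U k''`, `k < k'' ≤ K`, has `k₁ ≤ k`, so `z ∈ Ch n (k-Δ)`; CLAIM (n).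
Hypotheses: hLGR, hLMX, hLFM. -/
def StLAC : Prop :=
  ∀ (s : ℝ) (w w' m K : ℤ) (F : Set Pl) (α β : ℝ) (U : ℤ → Set Pl), MeasurableSet F → 0 < α → α ≤ β →
    w ≤ w' →
    (∀ k, ∀ y ∈ U k, Rich F s (k + w) (k - m) β y ∧ ¬ Rich F s (k + w') (k - m) α y) →
    (∀ k, ∀ y ∈ U k, RQ s (k + w) (k - m) y ⊆ U k) →
    ∀ n : ℕ, volume (Ch F U (w' - w) (n + 1) K) ≤
      ENNReal.ofReal ((α / β) ^ n) * volume (F ∩ ⋃ k ∈ Iic K, U k)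

/-- LAN (about 120 lines), counting.  Let `V = vol(F ∩ ⋃_{0 ≤ k < K} U k)` and `N z = #{0 ≤ k < K : z ∈ U k}`; the left side is `∫_F N`.  If `N z > n Δ` then `z ∈ Ch F U Δ (n+1) (K-1)`: the
largest such `k` is `k₁ ≤ K-1`; more than `(n-1) Δ` of the others are `≤ k₁ - Δ`; induction on `n` (for all `K`).  So `∫_F N ≤ n Δ V + K vol(Ch .. (n+1) (K-1))` (`N = 0` outside the union) `≤ n Δ V + V`.
Hypotheses: none. -/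
def StLAN : Prop :=
  ∀ (F : Set Pl) (U : ℤ → Set Pl) (Δ K n : ℕ) (ρ : ℝ≥0∞), MeasurableSet F →
    (∀ k, MeasurableSet (U k)) → 1 ≤ Δ →
    volume (Ch F U Δ (n + 1) ((K : ℤ) - 1)) ≤ ρ * volume (F ∩ ⋃ k ∈ Ico (0 : ℤ) K, U k) →
    ρ * K ≤ 1 →
    ∑ k ∈ Finset.range K, volume (F ∩ U k) ≤
      ((n * Δ + 1 : ℕ) : ℝ≥0∞) * volume (F ∩ ⋃ k ∈ Ico (0 : ℤ) K, U k)

/-! ## From chords to cells -/

/-- LGY (about 200 lines).  `ℓ = 2^(-u)`, `a = k - u`, `b = k - m`, `x' = x - 2^k c`, `E = E s`.  `Av bx (2·2^b) 1_F z = 4^(-b-1) vol(F ∩ Sq z (2^b))`, so (Fubini)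
`Y = 4^(-b-1) ∫_{|t| ≤ 1/2} vol(F ∩ Sq (x' - 2^a t E) (2^b)) dt = 4^(-b-1) ∫_{z ∈ F} |{t : |t| ≤ 1/2, z ∈ Sq (x' - 2^a t E) (2^b)}| dz`.  Such `z` satisfy
`|z 0 - x' 0| ≤ 2^a/2 + 2^b ≤ 3·2^a` (`m ≥ u-1`) and `|pr s z - pr s x'| ≤ 2·2^b` (`pr s E = 0`, `|s| ≤ 1`); call this parallelogram `Pa`; the set of `t` is contained in an interval of length `2·2^b/2^a`.
So `Y ≤ 4^(-b-1)·2·2^(b-a) vol(F ∩ Pa) = ½ 2^(-a-b) vol(F ∩ Pa)`.  `Pa` is covered by at most `7·5 = 35` cells `RQ s a b y`, `y ∈ Pa`.  If `F` has measure `< (η/18) 2^(a+b)` in each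
of them then `Y ≤ (35/36) η < η`.  Hypotheses: hPT, hMEA, hLGR. -/
def StLGY : Prop :=
  ∀ (s : ℝ) (c : Pl) (m u : ℕ) (k : ℤ) (F : Set Pl) (η : ℝ) (x : Pl), |s| ≤ 1 → u ≤ m + 1 → BM F →
    0 < η → η ≤ Y s c m (1 / (2 : ℝ) ^ u) k (F.indicator 1) x →
    Hit s c m u k {y | Rich F s (k - (u : ℤ)) (k - (m : ℤ)) (η / 18) y} x

/-- LLM (about 150 lines), the ladder.  `om u b (16 u) = om u (b+1) 0`.  `lad u (16ub+l+1) = om u b l` for `l < 16u` (`Nat.add_mul_div_left` etc.), for `l = 16u` as well.  Monotone: `-u ≤ om u 0 0`, and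
`lad u (t+2) - lad u (t+1) = 2^b 64 u`, `b = t/(16u)`.  `thr u η t = η (1 - t/(2(Mt u + 2)))`.  Hypotheses: none. -/
def StLLM : Prop :=
  ∀ u : ℕ, 1 ≤ u →
    lad u 0 = -(u : ℤ) ∧ Monotone (lad u) ∧
    (∀ b l : ℕ, l ≤ 16 * u → lad u (16 * u * b + l + 1) = (om u b l : ℤ)) ∧
    (lad u 1 - lad u 0 ≤ 1025 * (u : ℤ) ^ 2) ∧
    (∀ b l : ℕ, l < 16 * u → lad u (16 * u * b + l + 2) - lad u (16 * u * b + l + 1) ≤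
      64 * u * 2 ^ b) ∧
    (∀ b l i : ℕ, 1 ≤ b → l < 16 * u → i < 16 * u → ∃ t ≤ 16 * u * b + l + 1,
      lad u t = (om u (b - 1) (16 * u - i) : ℤ)) ∧
    (∀ η : ℝ, 0 < η → thr u η 0 = η ∧ ∀ t ≤ Mt u + 1, η / 2 ≤ thr u η t ∧ thr u η t ≤ η ∧
      (t ≤ Mt u → 0 < thr u η (t + 1) ∧ thr u η (t + 1) ≤ thr u η t ∧
        thr u η (t + 1) / thr u η t ≤ 1 - 1 / (2 * ((Mt u : ℝ) + 2))))

/-- LPG (about 80 lines).  Let `y` be the point of `Hit`.  `Rich` holds at step `0` (`lad u 0 = -u`, `thr u η 0 = η`).  Let `τ` be the least `t ≤ Mt u + 1` such that `t = Mt u + 1` or `Rich` fails at the step `t + 1`; then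
`Rich` holds at all steps `≤ τ`, and `y ∈ CU .. τ k`.  Hypotheses: hLLM. -/
def StLPG : Prop :=
  ∀ (F : Set Pl) (s : ℝ) (c : Pl) (m u : ℕ) (η : ℝ) (k : ℤ) (x : Pl), 1 ≤ u → 0 < η →
    Hit s c m u k {y | Rich F s (k - (u : ℤ)) (k - (m : ℤ)) η y} x →
    ∃ τ ≤ Mt u + 1, Hit s c m u k (CU F s m u η τ k) x

/-- LUF (about 150 lines).  `UU .. τ k` is a union of cells `RQ s (k + lad u τ) (k-m) y` (LFM; the cell at the step `τ + 1` is larger, LLM), and `thr ≥ η/2` for `τ ≤ Mt u + 1`.  For the union over `0 ≤ k < K` let `κ z` be the largest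
`k < K` with `z ∈ UU .. τ k`, `A z = κ z + lad u τ`, `B z = κ z - m`: if `z'` is in the cell of `z` then for every `k' ≥ κ z` the cells of `z` and `z'` at `k'` coincide, so `z ∈ UU .. k'` iff `z' ∈ UU .. k'`,
hence `κ z' = κ z`.  (`A`, `B` arbitrary outside the union.)  Hypotheses: hLGR, hLFM, hLLM. -/
def StLUF : Prop :=
  ∀ (F : Set Pl) (s : ℝ) (m u : ℕ) (η : ℝ) (τ K : ℕ), 1 ≤ u → 0 < η → τ ≤ Mt u + 1 →
    (∀ k : ℤ, Fml F s (η / 2) (UU F s m u η τ k) (fun _ => k + lad u τ) (fun _ => k - (m : ℤ)) ∧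
      ∀ y ∈ UU F s m u η τ k, RQ s (k + lad u τ) (k - (m : ℤ)) y ⊆ UU F s m u η τ k) ∧
    ∃ A B : Pl → ℤ, Fml F s (η / 2) (⋃ k ∈ Ico (0 : ℤ) K, UU F s m u η τ k) A B ∧
      ∀ z ∈ ⋃ k ∈ Ico (0 : ℤ) K, UU F s m u η τ k, ∃ k ∈ Ico (0 : ℤ) K,
        A z = k + lad u τ ∧ B z = k - (m : ℤ)

/-! ## The density of the ridges in a square -/

/-- LLF (about 150 lines).  `r = ‖ξ‖`, `N = 2^u`, `T_j = sinc(8π 2^a ⟪E s_j, ξ⟫) (1 - sinc(2π ξ 0) sinc(2π ξ 1))`, `|T_j| ≤ 2`.  If `r ≤ 2^(-u/2)`: `|1 - sinc sinc| ≤ 2π(|ξ 0| + |ξ 1|) ≤ 4π r`, so `∑ T_j² ≤ N 16π² r² ≤ 16π²`.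
If `r > 2^(-u/2)` let `Cl = {j : |⟪E s_j, ξ⟫| ≤ 2^(-i) r/4}`.  If `|ξ 1| ≥ r/4` then `j ∈ Cl` gives `|s_j + ξ 0/ξ 1| ≤ 2^(-i)`, so `#Cl ≤ ν`; if `|ξ 1| < r/4` then `|⟪E s, ξ⟫| ≥ |ξ 0| - |ξ 1| ≥ r/2` and `Cl` is empty.  For `j ∉ Cl`:
`|T_j| ≤ 2/(8π 2^a 2^(-i) r/4) ≤ 2^(i-a+u/2)`, `∑ T_j² ≤ N 2^(2i-2a+u) ≤ 1` as `i + u ≤ a`.  Hypotheses: hPT, hSINC. -/
def StLLF : Prop :=
  ∃ C : ℝ, 1 ≤ C ∧ ∀ (u : ℕ) (s : ℕ → ℝ) (ν : ℝ) (a i : ℕ) (ξ : Pl), (∀ j < 2 ^ u, |s j| ≤ 1) →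
    1 ≤ ν → i + u ≤ a →
    (∀ τ : ℝ, ({j : ℕ | j < 2 ^ u ∧ |s j - τ| ≤ (2 : ℝ) ^ (-(i : ℤ))}.ncard : ℝ) ≤ ν) →
    ∑ j ∈ Finset.range (2 ^ u), (Real.sinc (8 * Real.pi * (2 : ℝ) ^ a * ⟪E (s j), ξ⟫) *
      (1 - Real.sinc (2 * Real.pi * ξ 0) * Real.sinc (2 * Real.pi * ξ 1))) ^ 2 ≤ C * ν

/-- LLG (about 100 lines).  `f - Av bx 2 f` and its averages are `BB` (`Helper68.LM.StBBC`, `StFS`, `StFA`, proved, see `Pool.Agent.Helper68.LM.Asm`), the Fourier transform of the function in the statement is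
`sinc(π 8·2^a ⟪E s_j, ξ⟫) (1 - sinc(2π ξ 0) sinc(2π ξ 1)) ft f ξ` (MEA: `fm (sg s) (t • ξ)`, `fm bx (2 • ξ)`).  L2B, one scale (last clause), with LLF.  Hypotheses: hMEA, hL2B, hLLF. -/
def StLLG : Prop :=
  ∃ C : ℝ, 1 ≤ C ∧ ∀ (u : ℕ) (s : ℕ → ℝ) (ν : ℝ) (a i : ℕ) (f : Pl → ℝ), (∀ j < 2 ^ u, |s j| ≤ 1) →
    1 ≤ ν → i + u ≤ a →
    (∀ τ : ℝ, ({j : ℕ | j < 2 ^ u ∧ |s j - τ| ≤ (2 : ℝ) ^ (-(i : ℤ))}.ncard : ℝ) ≤ ν) → BB f →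
    (∀ j < 2 ^ u, BB (Av (sg (s j)) (8 * (2 : ℝ) ^ a) (fun y => f y - Av bx 2 f y))) ∧
    ∑ j ∈ Finset.range (2 ^ u),
      ∫⁻ x, ‖Av (sg (s j)) (8 * (2 : ℝ) ^ a) (fun y => f y - Av bx 2 f y) x‖ₑ ^ 2 ≤
      ENNReal.ofReal (C * ν) * ∫⁻ x, ‖f x‖ₑ ^ 2

/-- LLP (about 180 lines).  `ρ = 8·2^b`.  `Av bx ρ h y = ρ^(-2) ∫_{Sq y (ρ/2)} h`, so with `h = Av (sg s) (8·2^a) 1_F` and Fubini
`Av bx ρ h y = ρ^(-2) ∫_{|t| ≤ 1/2} vol(F ∩ Sq (y - 8·2^a t E) (ρ/2)) dt = ρ^(-2) ∫_{y' ∈ F} |{t : |t| ≤ 1/2, y' ∈ Sq (y - 8·2^a t E) (ρ/2)}| dy'`.  Let `y' ∈ F ∩ RQ s a b z`: `|y' 0 - y 0| < 2·2^a`, `|pr s y' - pr s y| < 2·2^b`.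
If `δ = y' 0 - y 0 + 8·2^a t` satisfies `|δ| ≤ 2·2^b` then `|t| ≤ (2·2^b + 2·2^a)/(8·2^a) ≤ 1/2` and `y' ∈ Sq (..) (4·2^b)` (`y' 1 - y 1 + 8·2^a t s = pr s y' - pr s y + s δ`): the measure of these `t` is
`4·2^b/(8·2^a)`.  So the average is at least `(1/64) 4^(-b) ½ 2^(b-a) vol(F ∩ RQ s a b z) = 2^(-a-b) vol(F ∩ RQ s a b z)/128 ≥ θ/128`.  Hypotheses: hPT, hMEA, hLGR. -/
def StLLP : Prop :=
  ∀ (s : ℝ) (a b : ℤ) (F : Set Pl) (θ : ℝ) (y z : Pl), |s| ≤ 1 → b ≤ a → BM F → 0 < θ →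
    |y 0 - z 0| < (2 : ℝ) ^ a → |pr s y - pr s z| < (2 : ℝ) ^ b → Rich F s a b θ z →
    θ / 128 ≤ Av bx (8 * (2 : ℝ) ^ b) (Av (sg s) (8 * (2 : ℝ) ^ a) (F.indicator 1)) y

/-- LLD (about 250 lines), local density.  `F' = F ∩ Sq x (2^(a+3))`, `f = 1_{F'}`, `h_j = Av (sg s_j) (8·2^a) (f - Av bx 2 f)`.  Let `y ∈ Sq x (4·2^a)` be in the `j`-th set, `z` the point, `b = Bf j z ≤ 0`: the cell of `z` is contained
in `Sq x (8·2^a)` (`|z 0 - x 0| ≤ 5·2^a`, `|z 1 - x 1| ≤ 4·2^a + 2^a + 2^b`), so `Rich F' s_j a b (θ/2) z` and LLP: `θ/256 ≤ Av bx (8·2^b) (Av (sg s_j) (8·2^a) f) y`.  `Av bx 2 f = ¼ vol(F' ∩ Sq · 1) ≤ D/4` (`Ctl`, `k = 0`), so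
`θ/512 ≤ θ/256 - D/4 ≤ Av bx (8·2^b) h_j y ≤ HL 1 h_j y` (`Sq 0 (1/2) ⊆ closedBall 0 1`, `8·2^b = 2^(b+3)`).  Chebyshev and `Helper68.LM.StHLS` (proved; `ρ = 1`, `p = 2`, for `|h_j|`): the measure is at most `(512/θ)² C ∫ h_j²`.  Sum over `j`: LLG,
`∫ f² = vol F' ≤ D 4^(a+3)` (`Ctl`, `k = a + 3`).  Hypotheses: hPT, hMEA, hLGR, hLLP, hLLG. -/
def StLLD : Prop :=
  ∃ C : ℝ, 1 ≤ C ∧ ∀ (u : ℕ) (s : ℕ → ℝ) (ν : ℝ) (a i : ℕ) (F : Set Pl) (D θ : ℝ) (Z : ℕ → Set Pl)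
    (Bf : ℕ → Pl → ℤ) (x : Pl), (∀ j < 2 ^ u, |s j| ≤ 1) → 1 ≤ ν → i + u ≤ a →
    (∀ τ : ℝ, ({j : ℕ | j < 2 ^ u ∧ |s j - τ| ≤ (2 : ℝ) ^ (-(i : ℤ))}.ncard : ℝ) ≤ ν) →
    BM F → Ctl D F → 0 < D → 1000 * D ≤ θ →
    (∀ j < 2 ^ u, ∀ z ∈ Z j, Bf j z ≤ 0 ∧ Rich F (s j) a (Bf j z) (θ / 2) z) →
    ∑ j ∈ Finset.range (2 ^ u), volume ({y | ∃ z ∈ Z j, |y 0 - z 0| < (2 : ℝ) ^ a ∧
        |pr (s j) y - pr (s j) z| < (2 : ℝ) ^ (Bf j z)} ∩ Sq x (4 * (2 : ℝ) ^ a)) ≤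
      ENNReal.ofReal (C * ν * D / θ ^ 2 * (4 : ℝ) ^ a)

end Pool.Agent.Helper20.RL
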