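import Pool.Agent.Helper20.RL.St1

/-!
# Project RL (MP_cb927e_an): interface statements, part 2 (the dual ridge theorem, the core estimate)

`N = 2^u`.  `om`, `ns`, `Slo` are from `Pool.Agent.Helper20.RG.Defs2`.
-/

set_option autoImplicit false

open MeasureTheory Set Filter Topology
open scoped ENNReal RealInnerProductSpace

namespace Pool.Agent.Helper20.RL

open Pool.Agent.Helper68.LM (Pl BB Bd Av HL ft fm DQ)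
open Pool.Agent.Helper20.RG

/-- LWR (about 200 lines), windows and ridges, abstract form of `StWCL` of project RG (see `Pool.Agent.Helper20.RG.St2` and the proof of WCL there: same argument, same numbers).
`γ = 2^(b-1) 64 u`, `a_i = k + om u (b-1) (16u-i) = k + om u (b-1) (16u) - iγ`.  WC with `n = 16u`, `N = 2^u`, `a = k + om u (b-1) (16u)`, `S i j = Er i j` (also for `D₀`), `r₁ i = 2·2^(a_i - 3γ/4)`, `r₂ i = (5/2)·2^(a_i - γ/2)`, `G = X`.  A point `x ∈ X` is either in the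
set of WC, or there is `i < 16u` with both `Dens (Er i) .. (64 D₀)`; then RDS applies with `Et j = Et i j`, `Er j = Er i j`, `p = a_i - 3γ/4`, `L = 2^(a_i - γ/2)`, `L₂ = 2^(a_i - γ/4)`, `α = 2^(-γ/16)`, `D = 64 D₀`: `100·2^p ≤ α L` as `3γ/16 ≥ 12u ≥ 24`,
`2^u L ≤ α² L₂` as `γ/8 ≥ 8u`; exotic partners: `Slo` with `i = γ/16 = 2^(b+1) u` gives `ns u b A σ` (for `b ≥ 1`, `2^(b-1)·4u = 2^(b+1) u`).  The sets `R` for RDS: the `x ∈ X` with these two `Dens`; `m ≤ #{j < N : x ∈ Et i j}`.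
WC gives `(1/2)^(16u)/D₀ E₀`, RDS gives for every `i` `C₂ ns 64 D₀/m³ E₀`.  Hypotheses: hWC, hRDS. -/
def StLWR : Prop :=
  ∃ C₂ : ℝ, 1 ≤ C₂ ∧ ∀ (u b : ℕ) (k : ℤ) (A σ : ℝ) (s : ℕ → ℝ) (Et Er : ℕ → ℕ → Set Pl)
    (D₀ m : ℝ) (E₀ : ℝ≥0∞) (X : Set Pl), 2 ≤ u → 1 ≤ b → 0 ≤ A → Slo u A σ s → 0 < D₀ →
    (∀ i < 16 * u, ∀ j < 2 ^ u, IsOpen (Et i j) ∧ MeasurableSet (Er i j) ∧ ∀ y ∈ Et i j, ∀ lam : ℝ,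
      |lam| ≤ 10 * (2 : ℝ) ^ (k + (om u (b - 1) (16 * u - i) : ℤ) - ((2 ^ (b - 1) * (16 * u) : ℕ) : ℤ)) →
        y + lam • E (s j) ∈ Er i j) →
    (∀ i < 16 * u, ∀ x : Pl, ∑ j ∈ Finset.range (2 ^ u), volume (Er i j ∩
      Sq x (4 * (2 : ℝ) ^ (k + (om u (b - 1) (16 * u - i) : ℤ)))) ≤
        ENNReal.ofReal (D₀ * (4 : ℝ) ^ (k + (om u (b - 1) (16 * u - i) : ℤ)))) →
    (∀ i < 16 * u, ∑ j ∈ Finset.range (2 ^ u), volume (Er i j) ≤ E₀) →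
    1000 ≤ m → 200 * ns u b A σ ≤ m → 12800 * D₀ ≤ m →
    (∀ x ∈ X, m ≤ ({j : ℕ | j < 2 ^ u ∧ ∀ i < 16 * u, x ∈ Et i j}.ncard : ℝ)) →
    volume X ≤ ENNReal.ofReal ((1 / 2) ^ (16 * u) / D₀ +
      16 * u * (C₂ * ns u b A σ * (64 * D₀) / m ^ 3)) * E₀

/-- LCB (about 250 lines), the level sets of the number of typical directions.  `Z j = Ty F (s j) θ (V j) (Af j) (Bf j)`, `a_i = om u (b-1) (16u-i) ≤ om u b 0 ≤ Af j z`.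
(1) `Bf j z ≤ 0` for `z ∈ Z j`: otherwise let `B = Bf j z ≥ 1`; `Rich F s B B (θ/2) z` (`B ≤ Af j z`), the cell is contained in `Sq z (2^(B+1))`, so `(θ/2) 4^B ≤ D 4^(B+1)` (`Ctl`), `θ ≤ 8D`, a contradiction.
(2) `Et i j = {y | ∃ z ∈ Z j, |y 0 - z 0| < 2^(a_i - 1), |pr s y - pr s z| < 2^(Bf j z)}`, `Er i j` the same with `2^(a_i)`; open sets (unions of open sets).  `y ∈ Et i j` gives `y + lam E ∈ Er i j` (`10·2^(a_i - 2^(b-1) 16u) ≤ 2^(a_i - 1)`, `pr s E = 0`).  `Z j ⊆ Et i j`.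
(3) `∑_j vol(Er i j ∩ Sq x (4·2^(a_i))) ≤ D₀ 4^(a_i)`, `D₀ = C₃ ns D/θ²`, by LLD with `i ↦ 2^(b+1) u`, `ν = ns u b A σ ≥ 1` (`Slo`), `2^(b+1) u + u ≤ a_i` (`a_i ≥ 2^(b-1) 1024 u²`).  `Rich F s a_i (Bf j z) (θ/2) z` as `a_i ≤ Af j z`.
(4) `vol(Er i j) ≤ 9·(2/θ) vol(F ∩ V j)`: LER with `p = q = 1`, `θ' = θ/2`, `a = a_i`.  So `E₀ = ofReal(18/θ) ∑_j vol(F ∩ V j)`.
(5) LWR with `k = 0`.  `C₃` = maximum of the constants (`1024·C₂`, that of LLD).  Hypotheses: hPT, hLGR, hLFM, hLER, hLLD, hLWR. -/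
def StLCB : Prop :=
  ∃ C₃ : ℝ, 1 ≤ C₃ ∧ ∀ (u b : ℕ) (A σ : ℝ) (s : ℕ → ℝ) (F : Set Pl) (D θ m : ℝ) (V : ℕ → Set Pl)
    (Af Bf : ℕ → Pl → ℤ), 2 ≤ u → 1 ≤ b → 0 ≤ A → Slo u A σ s → BM F → Ctl D F → 0 < D →
    1000 * D ≤ θ → θ ≤ 1 →
    (∀ j < 2 ^ u, Fml F (s j) θ (V j) (Af j) (Bf j) ∧
      ∀ z ∈ V j, (om u b 0 : ℤ) ≤ Af j z ∧ Bf j z ≤ Af j z) →
    1000 ≤ m → 200 * ns u b A σ ≤ m → 12800 * (C₃ * ns u b A σ * D / θ ^ 2) ≤ m →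
    volume {z | m ≤ ({j : ℕ | j < 2 ^ u ∧ z ∈ Ty F (s j) θ (V j) (Af j) (Bf j)}.ncard : ℝ)} ≤
      ENNReal.ofReal (((1 / 2) ^ (16 * u) / (C₃ * ns u b A σ * D / θ ^ 2) +
        u * C₃ * ns u b A σ * (C₃ * ns u b A σ * D / θ ^ 2) / m ^ 3) * (18 / θ)) *
      ∑ j ∈ Finset.range (2 ^ u), volume (F ∩ V j)

/-- LCC (about 150 lines), absorption.  `n(z) = #{j < N : z ∈ Z j} ≤ N`, `T = ∑ vol(Z j) = ∫_F n < ∞`.  `n ≤ m₀ + ∑_{i : 2^i m₀ ≤ N} 2^(i+1) m₀ 1[2^i m₀ ≤ n]` (if `2^i m₀ ≤ n < 2^(i+1) m₀` the `i`-th term is `≥ n`; otherwise `n < m₀`).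
So `T ≤ m₀ vol F + ∑_i 2^(i+1) m₀ (e₁ + e₂/(8^i m₀³)) T ≤ m₀ vol F + (4 N e₁ + 4 e₂/m₀²) T ≤ m₀ vol F + T/2` (`∑_{i : 2^i m₀ ≤ N} 2^(i+1) m₀ ≤ 4N`).  `T < ∞`.  Hypotheses: none. -/
def StLCC : Prop :=
  ∀ (N : ℕ) (F : Set Pl) (Z : ℕ → Set Pl) (m₀ e₁ e₂ : ℝ), MeasurableSet F → volume F ≠ ∞ →
    (∀ j < N, MeasurableSet (Z j) ∧ Z j ⊆ F) → 1 ≤ m₀ → 0 ≤ e₁ → 0 ≤ e₂ →
    4 * N * e₁ + 4 * e₂ / m₀ ^ 2 ≤ 1 / 2 →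
    (∀ m : ℝ, m₀ ≤ m → volume {z | m ≤ ({j : ℕ | j < N ∧ z ∈ Z j}.ncard : ℝ)} ≤
      ENNReal.ofReal (e₁ + e₂ / m ^ 3) * ∑ j ∈ Finset.range N, volume (Z j)) →
    ∑ j ∈ Finset.range N, volume (Z j) ≤ ENNReal.ofReal (2 * m₀) * volume F

/-- the dual ridge theorem with the constant `κ` -/
def LCIk (κ : ℝ) : Prop :=
  ∀ (u b : ℕ) (A σ : ℝ) (s : ℕ → ℝ) (F : Set Pl) (D θ : ℝ) (V : ℕ → Set Pl)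
    (Af Bf : ℕ → Pl → ℤ), 2 ≤ u → 1 ≤ b → 0 ≤ A → Slo u A σ s → BM F → Ctl D F →
    (2 : ℝ) ^ (-(6 * (u : ℤ))) ≤ D → 1000 * D ≤ θ → θ ≤ 1 →
    (∀ j < 2 ^ u, Fml F (s j) θ (V j) (Af j) (Bf j) ∧
      ∀ z ∈ V j, (om u b 0 : ℤ) ≤ Af j z ∧ Bf j z ≤ Af j z) →
    ∑ j ∈ Finset.range (2 ^ u), volume (F ∩ V j) ≤
      ENNReal.ofReal (4 * M0 κ u b A σ D θ) * volume F

/-- LCI (about 200 lines), the dual ridge theorem.  `Z j = Ty ..` (measurable, LFM), `n₁ = ns u b A σ ≥ 1`, `D₀ = C₃ n₁ D/θ²`, `m₀ = M0 κ u b A σ D θ = κ n₁ (1 + u √(D/θ³))`, `κ` large.  `∑ vol(F ∩ V j) ≤ 2 ∑ vol(Z j)` (LTY), so LCB gives the hypothesis of LCC with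
`e₁ = (1/2)^(16u)/D₀ · 36/θ`, `e₂ = u C₃ n₁ D₀ · 36/θ`, if `m₀ ≥ 1000`, `200 n₁`, `12800 D₀`: the last one follows from `(D/θ²)² ≤ D/θ³` (`D ≤ θ`), so `D₀ ≤ C₃ n₁ √(D/θ³)`.  `4 e₂/m₀² ≤ 144 u C₃² n₁² D θ^(-3)/(κ² n₁² u² D θ^(-3)) ≤ 1/4`
(`m₀ ≥ κ n₁ u √(D/θ³)`).  `4 N e₁ ≤ 144·2^u 2^(-16u) θ/D ≤ 144·2^(-15u+6u) ≤ 1/4` (`D₀ ≥ D/θ²`, `u ≥ 2`).  So `∑ vol(F ∩ V j) ≤ 2·2 m₀ vol F`.  Hypotheses: hLFM, hLTY, hLCB, hLCC. -/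
def StLCI : Prop := ∃ κ : ℝ, 1 ≤ κ ∧ LCIk κ

/-! ## One class -/

/-- LPA (about 150 lines), the number of scales for one direction.  Let `U k = UU F s m u η τ k` for `0 ≤ k`, and `∅` for `k < 0`.  LAC with `w = lad u τ`, `w' = lad u (τ+1)`, `β = thr u η τ`, `α = thr u η (τ+1)`, `K ↦ K - 1` and `n = 600 u³`; `(α/β)^n K ≤ (1 - 1/(2(Mt u + 2)))^n 2^(4u) ≤
exp(-n/(2(Mt u + 2)) + 4u log 2) ≤ 1` since `2 (Mt u + 2) ≤ 132 u²`.  LAN with `Δ = lad u (τ+1) - lad u τ` (`≥ 1`) gives the factor `n Δ + 1 ≤ 600·1025 u⁵ 2^b + 1`.  Measurability: LUF, LGR.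
(`⋃ k ∈ Iic (K-1), U k = ⋃ k ∈ Ico 0 K, UU ..`.)  Hypotheses: hLGR, hLAC, hLAN, hLLM, hLUF. -/
def StLPA : Prop :=
  ∀ (F : Set Pl) (s : ℝ) (m u : ℕ) (η : ℝ) (τ b K : ℕ), BM F → 1 ≤ u → 0 < η → τ ≤ Mt u →
    K ≤ 2 ^ (4 * u) → lad u τ < lad u (τ + 1) → lad u (τ + 1) - lad u τ ≤ 1025 * (u : ℤ) ^ 2 * 2 ^ b →
    ∑ k ∈ Finset.range K, volume (F ∩ UU F s m u η τ k) ≤
      ENNReal.ofReal (10 ^ 6 * (u : ℝ) ^ 5 * 2 ^ b) *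
        volume (F ∩ ⋃ k ∈ Ico (0 : ℤ) K, UU F s m u η τ k)

/-- LPB (about 80 lines).  `LCIk κ` with `V j = ⋃ k ∈ Ico 0 K, UU F (s j) (m j) u η τ k`, `θ = η/2`, `Af`, `Bf` from LUF: `Af j z = k + lad u τ ≥ om u b l ≥ om u b 0` (LLM), `Bf j z = k - m j ≤ k + 1 - u ≤ Af j z`.
Hypotheses: hLLM, hLUF. -/
def StLPB : Prop :=
  ∀ κ : ℝ, 1 ≤ κ → LCIk κ → ∀ (u b l K : ℕ) (A σ : ℝ) (s : ℕ → ℝ) (m : ℕ → ℕ) (F : Set Pl) (D η : ℝ), 2 ≤ u →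
    1 ≤ b → l < 16 * u → 16 * u * b + l ≤ Mt u → 0 ≤ A → Slo u A σ s → (∀ j < 2 ^ u, u ≤ m j + 1) →
    BM F → Ctl D F → (2 : ℝ) ^ (-(6 * (u : ℤ))) ≤ D → 2000 * D ≤ η → η ≤ 1 →
    ∑ j ∈ Finset.range (2 ^ u), volume (F ∩ ⋃ k ∈ Ico (0 : ℤ) K,
      UU F (s j) (m j) u η (16 * u * b + l + 1) k) ≤
      ENNReal.ofReal (4 * M0 κ u b A σ D (η / 2)) * volume F

/-- LXM (about 120 lines), Markov at `x`.  The set of the `x` with `Hit (s j) (c j) (m j) u k (UU ..) x` is a translate (by `2^k c j`) of `{x' | ∃ y ∈ UU .., |x' 0 - y 0| ≤ 3·2^(k-u), |pr x' - pr y| ≤ 2·2^(k-m)}`, of measure at most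
`7·5·(2/η) vol(F ∩ UU ..)`: LER with `V = Z = UU ..`, `a = k + lad u τ ≥ k - u`, `p = 3`, `q = 2`, `θ = θ' = η/2` (LUF).  `CU ⊆ UU`.  Then `m₁ vol{m₁ ≤ #} ≤ ∑_j vol{Hit}` (replace the sets by measurable ones of the same measure,
`toMeasurable`).  Hypotheses: hLER, hLLM, hLUF. -/
def StLXM : Prop :=
  ∀ (u τ : ℕ) (k : ℤ) (s : ℕ → ℝ) (c : ℕ → Pl) (m : ℕ → ℕ) (F : Set Pl) (η m₁ : ℝ), 1 ≤ u →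
    τ ≤ Mt u + 1 → BM F → 0 < η → 0 < m₁ →
    volume {x | m₁ ≤ ({j : ℕ | j < 2 ^ u ∧
      Hit (s j) (c j) (m j) u k (CU F (s j) (m j) u η τ k) x}.ncard : ℝ)} ≤
      ENNReal.ofReal (70 / (m₁ * η)) *
        ∑ j ∈ Finset.range (2 ^ u), volume (F ∩ UU F (s j) (m j) u η τ k)

/-- LXD (about 250 lines), density of the ridges at scale `k`.  `τ = 16ub + l + 1`, `a_i = k + om u (b-1) (16u-i)`, `θ = η/2`, `F' = F ∩ Sq x (2^(a_i+4))`.  `V j` = union of the cells `RQ (s j) a_i (k - m j) y`, `y ∈ CU .. ∩ Sq x (9·2^(a_i))`.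
Every such cell is contained in `Sq x (16·2^(a_i))` and is rich for `F` with threshold `≥ η/2` (`a_i - k = lad u t` for some `t ≤ τ`, LLM), so `Fml F' (s j) θ (V j) (fun _ => a_i) (fun _ => k - m j)`.  `LCIk κ` with `b - 1 ≥ 1` in place of `b`
(`om u (b-1) 0 ≤ a_i`, `k - m j ≤ k + 1 - u ≤ a_i`; `Ctl D F'`): `∑ vol(F' ∩ V j) ≤ 4 M0 κ u (b-1) A σ D θ vol F'`, `vol F' ≤ D 4^(a_i+4)` (`Ctl`, `a_i + 4 ≥ 0`).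
Let `x₁ ∈ Sq x (4·2^(a_i))` be in the `j`-th set, `y` the point of `CU`, `x' = x₁ - 2^k c j`: `|2^k c j| ≤ 2^(k+u) ≤ 2^(a_i)`, so `|y 0 - x 0| ≤ (4+1+1) 2^(a_i)` and `|y 1 - x 1| ≤ (4 + 1) 2^(a_i) + 3·2^(k-m) + 2^(a_i) ≤ 9·2^(a_i)`: the set is contained in a translate of
the enlargement (`p = 1`, `q = 3`) of `V j`, of measure `≤ 21·(1/θ) vol(F' ∩ V j)` (LER).  Total `≤ (42/η)·4 M0·D·256·4^(a_i)`.  Hypotheses: hPT, hLGR, hLFM, hLER, hLLM, hLUF. -/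
def StLXD : Prop :=
  ∀ κ : ℝ, 1 ≤ κ → LCIk κ → ∀ (u b l i k : ℕ) (A σ : ℝ) (s : ℕ → ℝ) (c : ℕ → Pl) (m : ℕ → ℕ) (F : Set Pl)
    (D η : ℝ) (x : Pl), 2 ≤ u → 2 ≤ b → l < 16 * u → 16 * u * b + l ≤ Mt u → i < 16 * u → 0 ≤ A →
    Slo u A σ s → (∀ j < 2 ^ u, ‖c j‖ ≤ (2 : ℝ) ^ u ∧ u ≤ m j + 1) → BM F → Ctl D F →
    (2 : ℝ) ^ (-(6 * (u : ℤ))) ≤ D → 2000 * D ≤ η → η ≤ 1 →
    ∑ j ∈ Finset.range (2 ^ u), volume ({x₁ | ∃ y ∈ CU F (s j) (m j) u η (16 * u * b + l + 1) k,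
        |(x₁ - (2 : ℝ) ^ (k : ℤ) • c j) 0 - y 0| < (2 : ℝ) ^ ((k : ℤ) + (om u (b - 1) (16 * u - i) : ℤ)) ∧
        |pr (s j) (x₁ - (2 : ℝ) ^ (k : ℤ) • c j) - pr (s j) y| < 3 * (2 : ℝ) ^ ((k : ℤ) - (m j : ℤ))} ∩
        Sq x (4 * (2 : ℝ) ^ ((k : ℤ) + (om u (b - 1) (16 * u - i) : ℤ)))) ≤
      ENNReal.ofReal (43008 * M0 κ u (b - 1) A σ D (η / 2) * D / η *
        (4 : ℝ) ^ ((k : ℤ) + (om u (b - 1) (16 * u - i) : ℤ)))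

/-- LXR (about 200 lines), the ridge theorem at `x`, scale `k`.  `τ = 16ub + l + 1`, `a_i = om u (b-1) (16u-i)`.  LWR with `Et i j = {x | ∃ y ∈ CU .., |(x - 2^k c j) 0 - y 0| < 2^(k + a_i - 1), |pr (x - 2^k c j) - pr y| < 3·2^(k-m j)}`, `Er i j` the same with `2^(k+a_i)` (open sets), `D₀` from LXD,
`E₀ = ofReal(42/η) ∑ vol(F ∩ UU ..)`: `Er i j` is a translate of an enlargement, LER with `V = UU ..`, `Z = CU ..`, `a = k + a_i ≤ k + lad u τ`, `p = 1`, `q = 3`, `θ' = η/2` (the cells of length `k + a_i` are rich by the definition of `CU`, LLM).  `Hit .. x` gives `x ∈ Et i j` for all `i` (`3·2^(k-u) < 2^(k + a_i - 1)`, as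
`a_i ≥ 1024`).  Shift: `10·2^(k + a_i - 2^(b-1) 16u) ≤ 2^(k + a_i - 1)`.  Hypotheses: hPT, hLER, hLLM, hLUF, hLXD, hLWR. -/
def StLXR : Prop :=
  ∃ C₄ : ℝ, 1 ≤ C₄ ∧ ∀ κ : ℝ, 1 ≤ κ → LCIk κ → ∀ (u b l k : ℕ) (A σ : ℝ) (s : ℕ → ℝ) (c : ℕ → Pl) (m : ℕ → ℕ)
    (F : Set Pl) (D η m₁ : ℝ), 2 ≤ u → 2 ≤ b → l < 16 * u → 16 * u * b + l ≤ Mt u → 0 ≤ A →
    Slo u A σ s → (∀ j < 2 ^ u, ‖c j‖ ≤ (2 : ℝ) ^ u ∧ u ≤ m j + 1) → BM F → Ctl D F →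
    (2 : ℝ) ^ (-(6 * (u : ℤ))) ≤ D → 2000 * D ≤ η → η ≤ 1 → 1000 ≤ m₁ → 200 * ns u b A σ ≤ m₁ →
    12800 * (43008 * M0 κ u (b - 1) A σ D (η / 2) * D / η) ≤ m₁ →
    volume {x | m₁ ≤ ({j : ℕ | j < 2 ^ u ∧
      Hit (s j) (c j) (m j) u k (CU F (s j) (m j) u η (16 * u * b + l + 1) k) x}.ncard : ℝ)} ≤
      ENNReal.ofReal (((1 / 2) ^ (16 * u) / (43008 * M0 κ u (b - 1) A σ D (η / 2) * D / η) +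
        u * C₄ * ns u b A σ * (43008 * M0 κ u (b - 1) A σ D (η / 2) * D / η) / m₁ ^ 3) * (42 / η)) *
        ∑ j ∈ Finset.range (2 ^ u), volume (F ∩ UU F (s j) (m j) u η (16 * u * b + l + 1) k)

/-! ## Numbers.  `P` denotes polynomials in `u` (constants depend on the fixed parameters), `N = 2^u`, `w = 2^b` -/

/-- LNA (about 60 lines).  `1/(m₁ η) ≤ u^10`, `w ≤ N^(1/2)`: the left side is `≤ P N^(3/2)`, and `3/2 < q`.  Hypotheses: none. -/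
def StLNA : Prop :=
  ∀ q : ℝ, 3 / 2 < q → ∃ (u₀ : ℕ) (C ε : ℝ), 0 < C ∧ 0 < ε ∧ ∀ (u b : ℕ) (η m₁ : ℝ), u₀ ≤ u → Nm u η m₁ →
    2 * b ≤ u → 70 / (m₁ * η) * (10 ^ 6 * (u : ℝ) ^ 5 * 2 ^ b) * (2 : ℝ) ^ u ≤
      C * (2 : ℝ) ^ ((q - ε) * u)

/-- LNB (about 200 lines).  `D = 8 N^(-q)`.  `1/η ≤ u^10 m₁ ≤ P N`, so `2000 D ≤ η` (`q > 1`), `2^(-6u) ≤ D` (`q < 2`).  `w > N^(1/2)`.  `n₁ = ns u (b-1) A σ = 1 + N A (w u)^(-1/σ) ≤ P N^(1 - 1/(2σ))` (`1 - 1/(2σ) > 0`).  With `θ = η/2`: `D/θ³ = 8D/η³ ≤ P D m₁³`, so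
`M0 κ u (b-1) ≤ P n₁ (1 + D^(1/2) m₁^(3/2))`, and the left side is at most `P M0 D m₁ ≤ m₁ P n₁ (D + D^(3/2) N^(3/2))`; `n₁ D ≤ P N^(1-1/(2σ)-q)`, `n₁ D^(3/2) N^(3/2) ≤ P N^(1 - 1/(2σ) - 3q/2 + 3/2)`, exponents negative:
`1/(2σ) > 1/(2q)` and `1 - 1/(2q) < 3(q-1)/2` for `q ≥ 3/2` (i.e. `3q² - 5q + 1 > 0`).  Hypotheses: none. -/
def StLNB : Prop :=
  ∀ A σ q κ : ℝ, 0 ≤ A → 3 / 2 < σ → σ < q → q < 2 → 1 ≤ κ → ∃ u₀ : ℕ, ∀ (u b : ℕ) (η m₁ : ℝ), u₀ ≤ u →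
    Nm u η m₁ → u < 2 * b → 2000 * (8 * (2 : ℝ) ^ (-(q * u))) ≤ η ∧
      (2 : ℝ) ^ (-(6 * (u : ℤ))) ≤ 8 * (2 : ℝ) ^ (-(q * u)) ∧
      12800 * (43008 * M0 κ u (b - 1) A σ (8 * (2 : ℝ) ^ (-(q * u))) (η / 2) *
        (8 * (2 : ℝ) ^ (-(q * u))) / η) ≤ m₁

/-- LNC (about 300 lines), few directions.  `W = min (10^6 u^5 w) K ≤ P min(w, N^σ)`, `n₁ = ns u b A σ ≤ P (1 + N w^(-1/σ))`, `m₁ ≤ P n₁` (as `n₁ ≥ 1`).  `D/θ³ ≤ P D m₁³ ≤ P N^(-q) n₁³`.  So the left side is at most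
`P W n₁ + P N^(-q/2) W n₁^(5/2)`.  `W n₁ ≤ P (W + W N w^(-1/σ)) ≤ P N^σ` (if `w ≤ N^σ`: `N w^(1-1/σ) ≤ N^σ`; if `w ≥ N^σ`: `N w^(-1/σ) ≤ 1`).  `W n₁^(5/2) ≤ P (W + N^(5/2) w^(1-5/(2σ))) ≤ P (N^σ + N^(5/2 + 1/2 - 5/(4σ)))` as `w ≥ N^(1/2)`, `1 < 5/(2σ)`.
`3 - q/2 - 5/(4σ) < 3 - q/2 - 5/(4q) < q` for `q ≥ 3/2` (i.e. `6q² - 12 q + 5 > 0`), and `σ < q`.  Hypotheses: none. -/
def StLNC : Prop :=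
  ∀ A σ q κ Cf : ℝ, 0 ≤ A → 3 / 2 < σ → σ < q → q < 2 → 1 ≤ κ → 1 ≤ Cf → ∃ (u₀ : ℕ) (C ε : ℝ), 0 < C ∧
    0 < ε ∧ ∀ (u b K : ℕ) (η m₁ : ℝ), u₀ ≤ u → Nm u η m₁ → u < 2 * b → (K : ℝ) ≤ Cf * (2 : ℝ) ^ (σ * u) →
    (m₁ < 1000 ∨ m₁ < 200 * ns u b A σ) →
    70 / (m₁ * η) * min (10 ^ 6 * (u : ℝ) ^ 5 * 2 ^ b) (K : ℝ) *
      (4 * M0 κ u b A σ (8 * (2 : ℝ) ^ (-(q * u))) (η / 2)) ≤ C * (2 : ℝ) ^ ((q - ε) * u)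

/-- LND (about 350 lines), many directions.  `W`, `n₁` as in LNC, `M = M0 κ .. ≤ P n₁ (1 + D^(1/2) m₁^(3/2))`; `ns u (b-1) ≤ 2 ns u b`, so `M0 κ u (b-1) ≤ 2 M`.  `Dx = 43008 M0 κ u (b-1) D/η ≥ D`, `Dx ≤ P M D m₁`, `42/η ≤ P m₁`.  First term: `N^(-16) (1/D) P N W·4M ≤ P N^(-16+2+1+2+1+2)` (all of `1/D ≤ N²`, `1/η ≤ P N`,
`W ≤ P N²`, `n₁ ≤ P N`, `D^(1/2) m₁^(3/2) ≤ N^2`).  Second term: `P n₁ Dx m₁^(-3) m₁ W M ≤ P n₁ M² D m₁^(-1) W ≤ P W n₁³ D (m₁^(-1) + D m₁²) ≤ P W n₁³ (D + D² N²)` (`m₁^(-1) ≤ P`).  `W n₁³ ≤ P (W + N³ w^(1-3/σ)) ≤ P (N^σ + N^(7/2 - 3/(2σ)))` (`w ≥ N^(1/2)`, `σ < 3`).  `D = 8 N^(-q)`: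
the exponents are `σ - q`, `7/2 - 3/(2σ) - q`, `σ + 2 - 2q`, `11/2 - 3/(2σ) - 2q`, all `< q`: the last one since `3/(2σ) > 3/(2q)` and `11/2 ≤ 3q + 3/(2q)` for `q ≥ 3/2` (`6q² - 11q + 3 = (2q-3)(3q-1)`), the third as `3q > 4 > σ + 2`.  Hypotheses: none. -/
def StLND : Prop :=
  ∀ A σ q κ C₄ Cf : ℝ, 0 ≤ A → 3 / 2 < σ → σ < q → q < 2 → 1 ≤ κ → 1 ≤ C₄ → 1 ≤ Cf →
    ∃ (u₀ : ℕ) (C ε : ℝ), 0 < C ∧ 0 < ε ∧ ∀ (u b K : ℕ) (η m₁ : ℝ), u₀ ≤ u → Nm u η m₁ → u < 2 * b →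
    (K : ℝ) ≤ Cf * (2 : ℝ) ^ (σ * u) →
    ((1 / 2) ^ (16 * u) / (43008 * M0 κ u (b - 1) A σ (8 * (2 : ℝ) ^ (-(q * u))) (η / 2) *
        (8 * (2 : ℝ) ^ (-(q * u))) / η) +
      u * C₄ * ns u b A σ * (43008 * M0 κ u (b - 1) A σ (8 * (2 : ℝ) ^ (-(q * u))) (η / 2) *
        (8 * (2 : ℝ) ^ (-(q * u))) / η) / m₁ ^ 3) * (42 / η) *
      min (10 ^ 6 * (u : ℝ) ^ 5 * 2 ^ b) (K : ℝ) *
      (4 * M0 κ u b A σ (8 * (2 : ℝ) ^ (-(q * u))) (η / 2)) ≤ C * (2 : ℝ) ^ ((q - ε) * u)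

/-! ## The core estimate -/

/-- LCT (about 300 lines), one class.  `D = 8·2^(-qu)`.  If `τ = 0`: LXM for every `k`, LPA with `b = 0` for every `j`, `vol(F ∩ ..) ≤ vol F`, LNA.  Otherwise `τ = 16ub + l + 1`, `l < 16u`, `b ≤ 3u + 1`.  If `2b ≤ u` (then `τ ≤ Mt u`): the same with this `b`.  If `2b > u` (so `b ≥ 2` for large `u`):
`∑_{k<K} ∑_j vol(F ∩ UU .. k) ≤ min(10^6 u^5 2^b, K) ∑_j vol(F ∩ ⋃ ..)`: the bound by `K` is trivial (each set is in the union), the other one is LPA if `τ ≤ Mt u`, and if `τ = Mt u + 1` then `b = 3u+1` and `K ≤ Cf 2^(2u) ≤ 10^6 u^5 2^b`; then LPB.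
If `m₁ < 1000` or `m₁ < 200 ns`: LXM and LNC; otherwise LXR (conditions by LNB; `‖c j‖ ≤ Cf ≤ 2^u`) and LND.  The constant `κ` is the one of LCI (`LCIk κ`), the same in LPB, LXR and in the numbers.  `K ≤ 2^(4u)`.  Hypotheses: hLLM, hLCI, hLPA, hLPB, hLXM, hLXR, hLNA, hLNB, hLNC, hLND. -/
def StLCT : Prop :=
  ∀ A σ q Cf : ℝ, 0 ≤ A → 3 / 2 < σ → σ < q → q < 2 → 1 ≤ Cf → ∃ (u₀ : ℕ) (C ε : ℝ), 0 < C ∧ 0 < ε ∧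
    ∀ (u K τ : ℕ) (s : ℕ → ℝ) (c : ℕ → Pl) (m : ℕ → ℕ) (F : Set Pl) (η m₁ : ℝ), u₀ ≤ u →
      Slo u A σ s → (∀ j < 2 ^ u, ‖c j‖ ≤ Cf ∧ u ≤ m j + 1) → (K : ℝ) ≤ Cf * (2 : ℝ) ^ (σ * u) →
      BM F → Ctl (8 * (2 : ℝ) ^ (-(q * u))) F → Nm u η m₁ → τ ≤ Mt u + 1 →
      ∑ k ∈ Finset.range K, volume {x | m₁ ≤ ({j : ℕ | j < 2 ^ u ∧
        Hit (s j) (c j) (m j) u k (CU F (s j) (m j) u η τ k) x}.ncard : ℝ)} ≤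
        ENNReal.ofReal (C * (2 : ℝ) ^ ((q - ε) * u)) * volume F

/-- LCR (about 200 lines), the core estimate.  Let `v_j = Y .. x ∈ [0,1]` (YB), `∑ v_j ≥ u^(-2)`.  The `j` with `v_j < u^(-2)/(2N)` contribute at most half; for the others `2^(-i-1) < v_j ≤ 2^(-i)` with `i ≤ 2u` (`u` large), so for some `i ≤ 2u`, with `η' = 2^(-i-1) ≥ u^(-2)/(4N)`:
`#{j : η' ≤ v_j} ≥ m' := max(1, u^(-4)/η')` (`u` large).  LGY: these `j` satisfy `Hit .. {y | Rich F .. (η'/18) y} x`; put `η = η'/18`; LPG: for some `τ ≤ Mt u + 1`, `#{j : Hit .. (CU .. η τ k) x} ≥ m₁ := m'/(Mt u + 2)`.  `Nm u η m₁`: `Mt u + 2 ≤ 66u²`; `m₁ η ≥ u^(-4)/(18·66 u²) ≥ u^(-10)`,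
`m₁ ≥ 1/(66u²) ≥ u^(-3)`, `m₁ ≤ max(1, 4 u^(-2) N) ≤ N`.  LCT for each of the `2u+1` values `η` and `Mt u + 2` values `τ`; decrease `ε`.  (If `v_j` is as above, `η ≤ 1`.)  Hypotheses: hYB, hLGY, hLPG, hLCT. -/
def StLCR : Prop :=
  ∀ A σ q Cf : ℝ, 0 ≤ A → 3 / 2 < σ → σ < q → q < 2 → 1 ≤ Cf → ∃ (u₀ : ℕ) (C ε : ℝ), 0 < C ∧ 0 < ε ∧
    ∀ (u K : ℕ) (s : ℕ → ℝ) (c : ℕ → Pl) (m : ℕ → ℕ) (F : Set Pl), u₀ ≤ u →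
      Slo u A σ s → (∀ j < 2 ^ u, ‖c j‖ ≤ Cf ∧ u ≤ m j + 1) → (K : ℝ) ≤ Cf * (2 : ℝ) ^ (σ * u) →
      BM F → Ctl (8 * (2 : ℝ) ^ (-(q * u))) F →
      ∑ k ∈ Finset.range K, volume {x | 1 / (u : ℝ) ^ 2 ≤ ∑ j ∈ Finset.range (2 ^ u),
        Y (s j) (c j) (m j) (1 / (2 : ℝ) ^ u) k (F.indicator 1) x} ≤
        ENNReal.ofReal (C * (2 : ℝ) ^ ((q - ε) * u)) * volume F

end Pool.Agent.Helper20.RL
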