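import Pool.Agent.Helper20.RL.Defs
import Pool.Agent.Helper20.RG.St2
import Pool.Agent.Helper20.RG.St3

/-!
# Project RL (MP_cb927e_an): interface statements, part 3 (age classes, restricted weak type, the theorem)

`N = 2^u`.  `Y`, `Sa`, `Graph`, `Gap`, `arc`, `KA`, `Loc`, `Slo`, `MaxB`, .. are from project RG.
-/

set_option autoImplicit false

open MeasureTheory Set Filter Topology
open scoped ENNReal RealInnerProductSpace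

namespace Pool.Agent.Helper20.RL

open Pool.Agent.Helper68.LM (Pl BB Bd Av HL ft fm DQ)
open Pool.Agent.Helper20.RG
open Pool.Agent.Helper61.Lacunary (ConditionG LpBounded)

/-! ## Age classes -/

/-- LAM (about 150 lines).  `Ck E D k` is increasing in `k`.  Measurability: `z ↦ vol(E ∩ Sq z r)` is measurable (`measurable_measure_prodMk_left` for the measurable set `{(z,w) | w ∈ E, |w 0 - z 0| ≤ r, |w 1 - z 1| ≤ r}`).  Third: for `z ∈ E` the `k` with `z ∈ Ck E D k` form an up-set of `ℤ`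
(possibly `∅` or `ℤ`), so at most four `l` have `z ∈ Fa E D i l`: if `κ` is the least element, `(l-4) 2^i < κ ≤ l 2^i`; `lintegral_tsum` of indicators.  Last: if the set is nonempty let `z` be a point of it; `Sq y (2^k') ⊆ Sq z (2^(k'+1))`.  Hypotheses: hPT. -/
def StLAM : Prop :=
  ∀ (E : Set Pl) (D : ℝ), BM E → 0 < D →
    (∀ k : ℤ, MeasurableSet (Ck E D k)) ∧ (∀ (i : ℕ) (l : ℤ), BM (Fa E D i l) ∧ Fa E D i l ⊆ E) ∧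
    (∀ i : ℕ, ∑' l : ℤ, volume (Fa E D i l) ≤ 4 * volume E) ∧
    ∀ (i : ℕ) (l : ℤ) (y : Pl) (k' : ℤ), l * 2 ^ i ≤ k' →
      volume (Fa E D i l ∩ Sq y ((2 : ℝ) ^ k')) ≤ ENNReal.ofReal (4 * D * (4 : ℝ) ^ k')

/-- LAP (about 250 lines).  `Y .. x` is an integral of `g` over points of `S = Sq x ((R+3) 2^k)` (`‖c‖ ≤ R`, `2^(k-m) ≤ 2^(k+1-u) ≤ 2·2^k`, `2^(k-u) ≤ 2^k`).  Let `z ∈ E ∩ S`; for `k' ≥ k`: `Sq z (2^k') ⊆ Sq x ((R+4) 2^k') ⊆ Sq x (Cf 2^k')`, so `z ∈ Ck E D k` by `Loc`.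
Let `far = Ck E D (k-K-2)`.  If `z ∉ far` let `κ` be the least integer with `z ∈ Ck E D κ`, `α = k - κ`, `0 ≤ α ≤ K+1`.  If `α = 0` then `z ∈ Fa E D 0 k`.  If `2^i ≤ α < 2^(i+1)` then `i ≤ I`, and for `l = k / 2^i` (floor): `l 2^i > k - 2^i ≥ κ` and `(l-4) 2^i ≤ k - 4·2^i < κ`, so `z ∈ Fa E D i l`.
So `1_E ≤ 1_far + ∑_{i ≤ I} 1_(Fa E D i (k/2^i))` on `S`.  `Y` of `1_far` is at most `D`: the box averages are `4^(-(k-m)-1) vol(far ∩ Sq z' (2^(k-m)))`, and if this set contains `z` then it is contained in `E ∩ Sq z (2^(k-m+1))`, `k - m + 1 ≥ k - K - 2`, of measure `≤ D 4^(k-m+1)`.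
`Y` is additive and monotone on bounded measurable functions with bounded support (YB).  Hypotheses: hPT, hMEA, hYB, hLAM. -/
def StLAP : Prop :=
  ∀ (E : Set Pl) (D R Cf : ℝ) (K I : ℕ) (s : ℝ) (c : Pl) (m u : ℕ) (x : Pl) (k : ℤ), BM E → 0 < D →
    |s| ≤ 1 → ‖c‖ ≤ R → m ≤ K → u ≤ m + 1 → R + 10 ≤ Cf → K + 3 ≤ 2 ^ I →
    Loc Cf D (E.indicator 1) x →
    Y s c m (1 / (2 : ℝ) ^ u) k (E.indicator 1) x ≤
      D + ∑ i ∈ Finset.range (I + 1),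
        Y s c m (1 / (2 : ℝ) ^ u) k ((Fa E D i (k / 2 ^ i)).indicator 1) x

/-- LRS (about 100 lines), rescaling.  `F' = {z | 2^t z ∈ F}`.  Both sides of the first equation are `∫∫ 1_F(2^t x - 2^k c - 2^k ℓ w - 2·2^(k-m) v)`.  Second: `Measure.addHaar_preimage_smul` (dimension 2).  Hypotheses: none. -/
def StLRS : Prop :=
  (∀ (F : Set Pl) (t k : ℤ) (s : ℝ) (c : Pl) (m : ℕ) (ℓ : ℝ) (x : Pl),
    Y s c m ℓ k (F.indicator 1) ((2 : ℝ) ^ t • x) =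
      Y s c m ℓ (k - t) ({z : Pl | (2 : ℝ) ^ t • z ∈ F}.indicator 1) x) ∧
  (∀ (S : Set Pl) (t : ℤ), volume {x : Pl | (2 : ℝ) ^ t • x ∈ S} =
    ENNReal.ofReal ((4 : ℝ) ^ (-t)) * volume S) ∧
  (∀ (F : Set Pl) (t : ℤ), BM F → BM {z : Pl | (2 : ℝ) ^ t • z ∈ F}) ∧
  (∀ (y : Pl) (t : ℤ) (r : ℝ), {z : Pl | (2 : ℝ) ^ t • z ∈ Sq ((2 : ℝ) ^ t • y) ((2 : ℝ) ^ t * r)} = Sq y r)

/-- the statement of LCR (part 2), copied, to keep this file independent of part 2: `CoreE = StLCR` -/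
def CoreE : Prop :=
  ∀ A σ q Cf : ℝ, 0 ≤ A → 3 / 2 < σ → σ < q → q < 2 → 1 ≤ Cf → ∃ (u₀ : ℕ) (C ε : ℝ), 0 < C ∧ 0 < ε ∧
    ∀ (u K : ℕ) (s : ℕ → ℝ) (c : ℕ → Pl) (m : ℕ → ℕ) (F : Set Pl), u₀ ≤ u →
      Slo u A σ s → (∀ j < 2 ^ u, ‖c j‖ ≤ Cf ∧ u ≤ m j + 1) → (K : ℝ) ≤ Cf * (2 : ℝ) ^ (σ * u) →
      BM F → Ctl (8 * (2 : ℝ) ^ (-(q * u))) F →
      ∑ k ∈ Finset.range K, volume {x | 1 / (u : ℝ) ^ 2 ≤ ∑ j ∈ Finset.range (2 ^ u),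
        Y (s j) (c j) (m j) (1 / (2 : ℝ) ^ u) k (F.indicator 1) x} ≤
        ENNReal.ofReal (C * (2 : ℝ) ^ ((q - ε) * u)) * volume F

/-- LCS (about 100 lines), the core estimate at the base scale `t`.  Apply `CoreE` to `F' = {z | 2^t z ∈ F}`: `vol(F' ∩ Sq y (2^k)) = 4^(-t) vol(F ∩ Sq (2^t y) (2^(k+t)))`, `vol F' = 4^(-t) vol F`, and `{x | .. ≤ ∑ Y .. (t + k) 1_F x}` is mapped to the set for `F'`, scale `k`, by `x ↦ 2^(-t) x` (LRS).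
(`CoreE` is a hypothesis inside the statement.)  Hypotheses: hLRS. -/
def StLCS : Prop :=
  CoreE → ∀ A σ q Cf : ℝ, 0 ≤ A → 3 / 2 < σ → σ < q → q < 2 → 1 ≤ Cf →
    ∃ (u₀ : ℕ) (C ε : ℝ), 0 < C ∧ 0 < ε ∧
    ∀ (u K : ℕ) (t : ℤ) (s : ℕ → ℝ) (c : ℕ → Pl) (m : ℕ → ℕ) (F : Set Pl), u₀ ≤ u →
      Slo u A σ s → (∀ j < 2 ^ u, ‖c j‖ ≤ Cf ∧ u ≤ m j + 1) → (K : ℝ) ≤ Cf * (2 : ℝ) ^ (σ * u) →
      BM F → (∀ (y : Pl) (k' : ℤ), t ≤ k' → volume (F ∩ Sq y ((2 : ℝ) ^ k')) ≤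
        ENNReal.ofReal (8 * (2 : ℝ) ^ (-(q * u)) * (4 : ℝ) ^ k')) →
      ∑ k ∈ Finset.range K, volume {x | 1 / (u : ℝ) ^ 2 ≤ ∑ j ∈ Finset.range (2 ^ u),
        Y (s j) (c j) (m j) (1 / (2 : ℝ) ^ u) (t + (k : ℤ)) (F.indicator 1) x} ≤
        ENNReal.ofReal (C * (2 : ℝ) ^ ((q - ε) * u)) * volume F

/-- LON (about 250 lines), the first level.  `D = 2^(-qu)`, `I` least with `K + 3 ≤ 2^I`: `2^I ≤ 2(K+3) ≤ (2Cf + 6) 2^(σu)`, `I ≤ 3u` for large `u`.  LAP (`Cf ↦ Cf + 10`, `R = Cf`) summed over `j`: `1/8 ≤ 2^u D + ∑_{i ≤ I} ∑_j Y .. 1_(Fa E D i (k/2^i)) x` and `2^(u-qu) ≤ 1/16`, so for some `i ≤ I`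
`∑_j Y .. ≥ 1/(16 (3u+1)) ≥ 1/u²` (`u ≥ 50`).  So the set is contained in the union over `i ≤ I`, `l ∈ ℤ`, `k = l 2^i + k'`, `0 ≤ k' < 2^i`, of `{x | 1/u² ≤ ∑_j Y .. k 1_(Fa E D i l) x}`.  LCS with `t = l 2^i`, `K ↦ 2^i`, `Cf ↦ 2Cf + 6`, `F = Fa E D i l` (LAM: density `4D`):
`≤ C 2^((q-ε)u) vol(Fa E D i l)`; sum over `l` (LAM) and `i`: `(3u+1)·4 C 2^((q-ε)u) vol E ≤ C' 2^(qu) vol E`.  (`CoreE` is a hypothesis inside the statement.)  Hypotheses: hLAM, hLAP, hLCS. -/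
def StLON : Prop :=
  CoreE → ∀ A σ q Cf : ℝ, 0 ≤ A → 3 / 2 < σ → σ < q → q < 2 → 1 ≤ Cf → ∃ (u₀ : ℕ) (C : ℝ), 0 < C ∧
    ∀ (u K : ℕ) (s : ℕ → ℝ) (c : ℕ → Pl) (m : ℕ → ℕ) (E : Set Pl), u₀ ≤ u → Slo u A σ s →
      (∀ j < 2 ^ u, ‖c j‖ ≤ Cf ∧ u ≤ m j + 1 ∧ m j ≤ K) → (K : ℝ) ≤ Cf * (2 : ℝ) ^ (σ * u) →
      BM E →
      volume {x | Loc (Cf + 10) ((2 : ℝ) ^ (-(q * u))) (E.indicator 1) x ∧ ∃ k : ℤ,
        1 / 8 ≤ ∑ j ∈ Finset.range (2 ^ u),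
          Y (s j) (c j) (m j) (1 / (2 : ℝ) ^ u) k (E.indicator 1) x} ≤
        ENNReal.ofReal (C * (2 : ℝ) ^ (q * u)) * volume E

/-! ## The other levels -/

/-- LDF (about 80 lines).  ERR and TOP with `W = 0`, `‖a + b‖² ≤ 2‖a‖² + 2‖b‖²`; `KA A σ u = u + 1 + ⌈(A 2^u)^σ⌉ ≤ u + 2 + A^σ 2^(σu)`, and `4^(-u) (2u + 3) ≤ 3 (u+1) 2^(-u/2)`.  Hypotheses: hERR, hTOP. -/
def StLDF : Prop :=
  ∀ (φ τ : ℝ → ℝ) (A σ : ℝ) (c : Pl), Graph φ τ → Gap A σ τ → 0 < A → 0 < σ → ∃ C : ℝ, 0 < C ∧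
    ∀ u : ℕ, 2 ≤ u → ∀ g : Pl → ℝ, BB g →
      ∑' k : ℤ, ∫⁻ x, ‖Sa c φ τ u k g x - Sa c φ τ (u - 1) k g x‖ₑ ^ 2 ≤
      ENNReal.ofReal (C * (((u : ℝ) + 1) * (2 : ℝ) ^ (-((u : ℝ) / 2)) + (2 : ℝ) ^ ((σ - 2) * u))) *
        ∫⁻ x, ‖g x‖ₑ ^ 2

/-- LHI (about 200 lines).  `δ = min(1/8, (2-σ)/4)`, `c = (1 - 2^(-δ))/32`: if all the differences (for the scale `k`) are at most `c 2^(-δi) Λ` in absolute value then the sum is at most `Λ/16`.  Otherwise Chebyshev: the measure is at most `∑_i ∑_k (c 2^(-δi) Λ)^(-2) ∫ |..|²`, and by LDF (`u + i + 1 ≥ 2`)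
`≤ C Λ^(-2) ∑_i 2^(2δi) ((u+i+2) 2^(-(u+i+1)/2) + 2^((σ-2)(u+i+1))) vol E ≤ C' Λ^(-2) ((u+1) 2^(-u/2) + 2^((σ-2)u)) vol E`.  `Λ^(-2) = Λ^(-q) Λ^(-(2-q)) ≤ Λ^(-q) 2^((2-q)u)`, and `(u+1) 2^((2-q-1/2)u) ≤ C''` as `q > 3/2`, `2^((2-q+σ-2)u) ≤ 1` as `σ < q`.  Hypotheses: hYB, hSYS, hLDF. -/
def StLHI : Prop :=
  ∀ (φ τ : ℝ → ℝ) (A σ q : ℝ) (c : Pl), Graph φ τ → Gap A σ τ → 0 < A → 3 / 2 < σ → σ < q → q < 2 →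
    ∃ C : ℝ, 0 < C ∧ ∀ (u : ℕ) (Λ : ℝ) (E : Set Pl), 1 ≤ u → (2 : ℝ) ^ (-(u : ℤ)) ≤ Λ → BM E →
      volume {x | ∃ k : ℤ, ENNReal.ofReal (Λ / 16) <
        ∑' i : ℕ, ‖Sa c φ τ (u + i + 1) k (E.indicator 1) x - Sa c φ τ (u + i) k (E.indicator 1) x‖ₑ} ≤
      ENNReal.ofReal (C * Λ ^ (-q)) * volume E

/-- LRW (about 300 lines), restricted weak type.  `arc c φ` has mass one, so nothing to prove for `Λ ≥ 1`; `ofReal (Av (arc c φ) (2^k) 1_E x) = ∫⁻ 1_E (x - 2^k y) d(arc)`.  Let `Λ < 1`, `2^(-u) ≤ Λ < 2^(1-u)`, `u ≥ 1`.  `R = ‖c‖ + |φ 0| + 3`, `Cf ≥ R`, `KA A σ v ≤ Cf 2^(σv)` for all `v ≥ 1`, `ρ = 2 (Cf + 10)`; `u₀` from LON.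
(a) `u ≥ u₀`: discard `{ofReal (2^(-qu)) < HL ρ 1_E}` (`Helper68.LM.StHLW`, proved: `≤ C 2^(qu) vol E ≤ C (2/Λ)^q vol E`) and the set of LHI.  For a.e. other `x` with `ofReal Λ < ⨆`: DOM (`u₀ ↦ u`): `Λ < 4 Sa u k 1_E x + Λ/4` for some `k`, so `2^u Sa u k 1_E x > (3/16) 2^u Λ ≥ 1/8`, that is `1/8 ≤ ∑_j Y (τ (tm u j)) (ce c φ u j) (mm τ u j) (1/2^u) k 1_E x`,
and `Loc (Cf + 10) (2^(-qu)) 1_E x` (GD): LON applies (`Slo`: `Sys.slope`, `Sys.sep`; `‖ce‖ ≤ R`; MM: `u ≤ mm + 1`, `mm ≤ KA A σ u`), `≤ C 2^(qu) vol E`.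
(b) `u < u₀`: use the level `u₀` (`2^(-u₀) ≤ Λ`): discard the set of LHI for `u₀` and `{ofReal (ε Λ) < HL ρ 1_E}`, `ε = 4^(-KA A σ u₀)/32` (`≤ C/(εΛ) vol E ≤ C' Λ^(-q) vol E` as `Λ < 1 < q`).  For a.e. other `x`: HLY: `Sa u₀ k 1_E x ≤ 4^(KA) ε Λ ≤ Λ/32`, so by DOM all `Av .. ≤ Λ/8 + Λ/4 < Λ`.
(`CoreE` is a hypothesis inside the statement.)  Hypotheses: hPT, hMEA, hYB, hMM, hSYS, hGD, hDOM, hHLY, hLHI, hLON. -/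
def StLRW : Prop :=
  CoreE → ∀ (φ τ : ℝ → ℝ) (A σ q : ℝ) (c : Pl), Graph φ τ → Gap A σ τ → 0 < A → 3 / 2 < σ → σ < q →
    q < 2 → RWm (arc c φ) q

/-- LIP (about 300 lines), interpolation with `L^∞`.  `F f = ⨆_k ∫⁻ f (x - 2^k y) dν` is measurable for measurable `f`, monotone and countably subadditive.  (1) The estimate of `RWm` holds for all measurable `E`: `E_n = E ∩ closedBall 0 n`, monotone convergence, `{Λ < F 1_E} = ⋃_n {Λ < F 1_(E_n)}` (increasing).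
(2) Let `∫ f^p < ∞`; then `Z = {f = ∞}` is a null set and by (1) `F 1_Z = 0` a.e., so `F (∞ 1_Z) = 0` a.e.  (3) `L' = max L 1`, `Λ > 0`, `λ = Λ/(2L')`, `E_i = {2^i λ < f ≤ 2^(i+1) λ}`: `f ≤ λ + ∑_i 2^(i+1) λ 1_(E_i) + ∞ 1_Z` and `F λ ≤ Λ/2`.  Let `δ > 0`, `(1+δ) q < p`, `c = (1 - 2^(-δ))/2`, so `∑_i c 2^(-δi) = 1/2`:
a.e. `x` with `Λ < F f x` satisfies `c 2^(-δi) Λ ≤ 2^(i+1) λ F 1_(E_i) x` for some `i`, so (use half of it for the strict inequality) `vol{Λ < F f} ≤ ∑_i C 2^((1+δ) q i) vol(E_i)`.  (4) `Helper68.LM.StLC` (layer cake, proved): multiply by `p Λ^(p-1)` and integrate, Tonelli: `∫ p Λ^(p-1) vol(E_i) dΛ = ∫ (∫_{2L' f 2^(-i-1) ≤ Λ < 2L' f 2^(-i)} p Λ^(p-1) dΛ) dx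
≤ (2L')^p 2^(-ip) ∫ f^p`; `∑_i 2^((1+δ) q i - p i) < ∞`.  Hypotheses: none. -/
def StLIP : Prop :=
  ∀ (ν : Measure Pl) (R L q p : ℝ), Bd R L ν → 0 < q → q < p → RWm ν q → MaxB ν p

/-- LMB (about 60 lines).  `arc c φ` is the image of Lebesgue measure on `[0,1]` under `t ↦ c + pt t (φ t)`, `|φ t - φ 0| ≤ |t|` (Graph), so `Bd (‖c‖ + |φ 0| + 3) 1 (arc c φ)`.  LRW and LIP.  (`CoreE` is a hypothesis inside the statement.)  Hypotheses: hPT, hLRW, hLIP. -/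
def StLMB : Prop :=
  CoreE → ∀ (φ τ : ℝ → ℝ) (A σ q p : ℝ) (c : Pl), Graph φ τ → Gap A σ τ → 0 < A → 3 / 2 < σ → σ < q →
    q < 2 → q < p → MaxB (arc c φ) p

/-- LMA (about 120 lines), the theorem.  As the proof of `StMAI` of project RG (module M_MAI, see `Pool.Agent.Helper20.RG.Asm`).  Choose `max s (3/2) < σ < q < p`.  COV; for every piece CAP gives `Gap A s` for `τ (ℓ ·)`, hence `Gap A' σ` (`i^(-1/s) ≤ i^(-1/σ)`), and `Graph (φ (ℓ ·)/ℓ) (τ (ℓ ·))`; LMB gives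
`MaxB (arc ..) p`, then RES, FIN.  (`CoreE` is a hypothesis inside the statement.)  Hypotheses: hPT, hCOV, hCAP, hLMB, hRES, hFIN. -/
def StLMA : Prop :=
  CoreE → ∀ (Ω : Set Pl) (p s : ℝ), IsOpen Ω → Convex ℝ Ω → Bornology.IsBounded Ω → (0 : Pl) ∈ Ω →
    3 / 2 < p → p < 2 → 0 < s → s < p → ConditionG Ω s → LpBounded Ω p

end Pool.Agent.Helper20.RL
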