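import Pool.Agent.Helper20.RL.St2

/-!
# Project RL (MP_cb927e_an): interface statements, part 4 (trivial density, ridge theorem, core estimate, `3 < q ^ 2 + q`)

These statements replace LLD, LCB, LCI, LPB, LXD, LXR, LNA, LNB, LNC, LND, LCT, LCR of St1, St2.  `N = 2^u`.
-/

set_option autoImplicit false

open MeasureTheory Set Filter Topology
open scoped ENNReal RealInnerProductSpace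

namespace Pool.Agent.Helper20.RL

open Pool.Agent.Helper68.LM (Pl BB Bd Av HL ft fm DQ)
open Pool.Agent.Helper20.RG

/-- bound for the number of rich directions at a typical point -/
noncomputable def M1 (κ : ℝ) (u b : ℕ) (A σ D θ : ℝ) : ℝ :=
  κ * (ns u b A σ + 2 ^ u * D / θ + u * Real.sqrt (ns u b A σ * (2 ^ u * D)) / θ)

/-- the ridges of direction `s`, half length `ρ`, around the points of `Z`, shifted by `v` -/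
def Rg (s : ℝ) (v : Pl) (ρ : ℝ) (Z : Set Pl) (B : Pl → ℤ) : Set Pl :=
  {y | ∃ z ∈ Z, |(y - v) 0 - z 0| < ρ ∧ |pr s (y - v) - pr s z| < 3 * (2 : ℝ) ^ (B z)}

/-- the exponents: `γ` is close to `q - 1` (such a `γ` exists if and only if `3 < q² + q`, for `1 < q < 2`) -/
def Ex (σ q γ : ℝ) : Prop :=
  1 < σ ∧ σ < q ∧ q < 2 ∧ 0 < γ ∧ γ < q - 1 ∧ 2 + γ - 3 * γ / (2 * q) < 3 * q / 2

/-! ## Ridges -/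

/-- PRD (about 150 lines), ridges.  First part: `Rg` is a union of open sets; `(y + lam E - v) 0 = (y - v) 0 + lam`, `pr s (lam E) = 0`; `(z + v) - v = z`.
Second part: `Rg s v ρ Z B` is the translate by `v` of `{x | ∃ z ∈ Z, |x 0 - z 0| < ρ ∧ |pr s x - pr s z| < 3·2^(B z)}`, LER with `p = 1`, `q = 3`: `(2+1)(6+1)/θ' = 21/θ'` (the hypotheses `θ`, `θ'` of LER are the same).  Hypotheses: hPT, hLER. -/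
def StPRD : Prop :=
  (∀ (s : ℝ) (v : Pl) (ρ : ℝ) (Z : Set Pl) (B : Pl → ℤ), IsOpen (Rg s v ρ Z B) ∧
    (∀ y ∈ Rg s v ρ Z B, ∀ lam : ℝ, |lam| ≤ ρ → y + lam • E s ∈ Rg s v (2 * ρ) Z B) ∧
    (0 < ρ → ∀ z ∈ Z, z + v ∈ Rg s v ρ Z B)) ∧
  ∀ (F : Set Pl) (s θ θ' : ℝ) (V Z : Set Pl) (A B : Pl → ℤ) (a : ℤ) (v : Pl), MeasurableSet F →
    Fml F s θ V A B → 0 < θ → 0 < θ' → Z ⊆ V → (∀ z ∈ Z, a ≤ A z ∧ Rich F s a (B z) θ' z) →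
    volume (Rg s v ((2 : ℝ) ^ a) Z B) ≤ ENNReal.ofReal (21 / θ') * volume (F ∩ V)

/-- PLD (about 200 lines), density of the ridges in a square (trivial bound).  Fix `j`.  Let `y ∈ Rg (..) ∩ Sq x (4·2^a)`, `z ∈ Z j` the point, `B = Bf j z ≤ a`: `|z 0 - x 0| ≤ 2^a + |v 0| + 4·2^a ≤ 6·2^a`, and `z 1 - (y - v) 1 = (pr z - pr (y - v)) + s (z 0 - (y - v) 0)`, so
`|z 1 - x 1| ≤ 3·2^B + 2^a + |v 1| + 4·2^a ≤ 9·2^a`.  Let `Z' = Z j ∩ Sq x (9·2^a)`, `F' = F ∩ Sq x (2^(a+4))`, `V' = {w | ∃ z ∈ Z', w ∈ RQ (s j) a (Bf j z) z}`.  The cells `RQ (s j) a (Bf j z) z`, `z ∈ Z'`, are contained in `Sq x (11·2^a)` (LGR) and in the cell of `z` in `V j`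
(`a ≤ Af j z`), on which `Bf j` is constant (`Fml`).  So `Fml F' (s j) θ' V' (fun _ => a) (Bf j)` and PRD (second part, for `F'`, `V'`, `Z'`, both thresholds `θ'`) gives `vol(Rg (..) Z' ..) ≤ (21/θ') vol F'`, `vol F' ≤ D 4^(a+4)` (`Ctl`, `a + 4 ≥ 0`).  `21·256 = 5376`.  Sum over `j`.
Hypotheses: hPT, hLGR, hPRD. -/
def StPLD : Prop :=
  ∀ (u : ℕ) (s : ℕ → ℝ) (v : ℕ → Pl) (a : ℤ) (F : Set Pl) (D θ θ' : ℝ) (V Z : ℕ → Set Pl)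
    (Af Bf : ℕ → Pl → ℤ) (x : Pl), 0 ≤ a → BM F → Ctl D F → 0 < D → 0 < θ → 0 < θ' →
    (∀ j < 2 ^ u, |s j| ≤ 1 ∧ |(v j) 0| ≤ (2 : ℝ) ^ a ∧ |(v j) 1| ≤ (2 : ℝ) ^ a ∧
      Fml F (s j) θ (V j) (Af j) (Bf j) ∧ Z j ⊆ V j ∧
      ∀ z ∈ Z j, a ≤ Af j z ∧ Bf j z ≤ a ∧ Rich F (s j) a (Bf j z) θ' z) →
    ∑ j ∈ Finset.range (2 ^ u),
      volume (Rg (s j) (v j) ((2 : ℝ) ^ a) (Z j) (Bf j) ∩ Sq x (4 * (2 : ℝ) ^ a)) ≤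
      ENNReal.ofReal (5376 * 2 ^ u * D / θ' * (4 : ℝ) ^ a)

/-- PRT (about 200 lines), the ridge theorem for rich cells.  `a_i = k + om u (b-1) (16u-i)`.  LWR with `Et i j = Rg (s j) (v j) (2^(a_i - 1)) (Z j) (Bf j)`, `Er i j = Rg (s j) (v j) (2^(a_i)) (Z j) (Bf j)`, `D₀ = 5376·2^u D/θ'`, `E₀ = ofReal (21/θ') ∑ vol(F ∩ V j)`, `X` the set on the left.
Open, shift: PRD (`10·2^(a_i - 2^(b-1) 16u) ≤ 2^(a_i - 1)`, as `2^(b-1)·16u ≥ 32`; `2·2^(a_i - 1) = 2^(a_i)`).  Density: PLD with `a = a_i ≥ 0` (`2^(k+u) ≤ 2^(a_i)` as `om ≥ 1024u²·1 ≥ u`).  `vol(Er i j) ≤ (21/θ') vol(F ∩ V j)`: PRD.  `16u (C₂ ns (64 D₀)/m³) = u (1024 C₂) ns D₀/m³`: `C₃ = 1024 C₂`.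
Hypotheses: hPRD, hPLD, hLWR. -/
def StPRT : Prop :=
  ∃ C₃ : ℝ, 1 ≤ C₃ ∧ ∀ (u b : ℕ) (k : ℤ) (A σ : ℝ) (s : ℕ → ℝ) (v : ℕ → Pl) (F : Set Pl)
    (D θ θ' m : ℝ) (V Z : ℕ → Set Pl) (Af Bf : ℕ → Pl → ℤ), 2 ≤ u → 1 ≤ b → 0 ≤ k → 0 ≤ A →
    Slo u A σ s → BM F → Ctl D F → 0 < D → 0 < θ → 0 < θ' →
    (∀ j < 2 ^ u, |(v j) 0| ≤ (2 : ℝ) ^ (k + (u : ℤ)) ∧ |(v j) 1| ≤ (2 : ℝ) ^ (k + (u : ℤ)) ∧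
      Fml F (s j) θ (V j) (Af j) (Bf j) ∧ Z j ⊆ V j ∧
      ∀ z ∈ Z j, ∀ i < 16 * u, k + (om u (b - 1) (16 * u - i) : ℤ) ≤ Af j z ∧
        Bf j z ≤ k + (om u (b - 1) (16 * u - i) : ℤ) ∧
        Rich F (s j) (k + (om u (b - 1) (16 * u - i) : ℤ)) (Bf j z) θ' z) →
    1000 ≤ m → 200 * ns u b A σ ≤ m → 12800 * (5376 * 2 ^ u * D / θ') ≤ m →
    volume {x | m ≤ ({j : ℕ | j < 2 ^ u ∧ ∀ i < 16 * u, x ∈ Rg (s j) (v j)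
        ((2 : ℝ) ^ (k + (om u (b - 1) (16 * u - i) : ℤ) - 1)) (Z j) (Bf j)}.ncard : ℝ)} ≤
      ENNReal.ofReal (((1 / 2) ^ (16 * u) / (5376 * 2 ^ u * D / θ') +
        u * C₃ * ns u b A σ * (5376 * 2 ^ u * D / θ') / m ^ 3) * (21 / θ')) *
      ∑ j ∈ Finset.range (2 ^ u), volume (F ∩ V j)

/-! ## The dual ridge theorem -/

/-- PCB (about 150 lines), the level sets of the number of typical directions.  PRT with `k = 0`, `v = 0`, `θ' = θ/2`, `Z j = Ty F (s j) θ (V j) (Af j) (Bf j)`: `5376·2^u D/(θ/2) = 10752·2^u D/θ`, `21/(θ/2) = 42/θ`.  `a_i = om u (b-1) (16u-i) ≤ om u b 0 ≤ Af j z`; `Rich F (s j) a_i (Bf j z) (θ/2) z` by the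
definition of `Ty`.  `Bf j z < 0 ≤ a_i` for `z ∈ Z j`: otherwise let `B = Bf j z ≥ 0`; `Rich F s B B (θ/2) z` (`B ≤ Af j z`), the cell is contained in `Sq z (2^(B+1))` (LGR), so `(θ/2) 4^B ≤ D 4^(B+1)` (`Ctl`), `θ ≤ 8D`, a contradiction.  `z ∈ Z j` gives `z ∈ Rg ..` for all `i` (PRD, `v = 0`).
Hypotheses: hPT, hLGR, hPRD, hPRT. -/
def StPCB : Prop :=
  ∃ C₃ : ℝ, 1 ≤ C₃ ∧ ∀ (u b : ℕ) (A σ : ℝ) (s : ℕ → ℝ) (F : Set Pl) (D θ m : ℝ) (V : ℕ → Set Pl)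
    (Af Bf : ℕ → Pl → ℤ), 2 ≤ u → 1 ≤ b → 0 ≤ A → Slo u A σ s → BM F → Ctl D F → 0 < D →
    1000 * D ≤ θ →
    (∀ j < 2 ^ u, Fml F (s j) θ (V j) (Af j) (Bf j) ∧
      ∀ z ∈ V j, (om u b 0 : ℤ) ≤ Af j z ∧ Bf j z ≤ Af j z) →
    1000 ≤ m → 200 * ns u b A σ ≤ m → 12800 * (10752 * 2 ^ u * D / θ) ≤ m →
    volume {z | m ≤ ({j : ℕ | j < 2 ^ u ∧ z ∈ Ty F (s j) θ (V j) (Af j) (Bf j)}.ncard : ℝ)} ≤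
      ENNReal.ofReal (((1 / 2) ^ (16 * u) / (10752 * 2 ^ u * D / θ) +
        u * C₃ * ns u b A σ * (10752 * 2 ^ u * D / θ) / m ^ 3) * (42 / θ)) *
      ∑ j ∈ Finset.range (2 ^ u), volume (F ∩ V j)

/-- the dual ridge theorem with the constant `κ` -/
def PCIk (κ : ℝ) : Prop :=
  ∀ (u b : ℕ) (A σ : ℝ) (s : ℕ → ℝ) (F : Set Pl) (D θ : ℝ) (V : ℕ → Set Pl)
    (Af Bf : ℕ → Pl → ℤ), 2 ≤ u → 1 ≤ b → 0 ≤ A → Slo u A σ s → BM F → Ctl D F →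
    (2 : ℝ) ^ (-(6 * (u : ℤ))) ≤ D → 1000 * D ≤ θ → θ ≤ 1 →
    (∀ j < 2 ^ u, Fml F (s j) θ (V j) (Af j) (Bf j) ∧
      ∀ z ∈ V j, (om u b 0 : ℤ) ≤ Af j z ∧ Bf j z ≤ Af j z) →
    ∑ j ∈ Finset.range (2 ^ u), volume (F ∩ V j) ≤
      ENNReal.ofReal (4 * M1 κ u b A σ D θ) * volume F

/-- PCI (about 200 lines), the dual ridge theorem.  `Z j = Ty ..` (measurable, LFM; `⊆ F`), `n₁ = ns u b A σ ≥ 1`, `D₀ = 10752·2^u D/θ`, `m₀ = M1 κ u b A σ D θ`, `κ` large.  `∑ vol(F ∩ V j) ≤ 2 ∑ vol(Z j)` (LTY), so PCB gives the hypothesis of LCC (`N = 2^u`) with `e₁ = (1/2)^(16u)/D₀ · 84/θ`,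
`e₂ = u C₃ n₁ D₀ · 84/θ`, since `m₀ ≥ 1000`, `200 n₁`, `12800 D₀` for `κ ≥ 12800·10752`.  `4 N e₁ = 336·2^u 2^(-16u)/(10752·2^u D) ≤ 2^(-16u+6u) ≤ 1/4`.  `4 e₂/m₀² ≤ 336 u C₃ n₁ 10752·2^u D θ^(-2)/(κ² u² n₁ 2^u D θ^(-2)) ≤ 1/4` for `κ² ≥ 4·336·10752·C₃`
(`m₀ ≥ κ u √(n₁ 2^u D)/θ`).  So `∑ vol(F ∩ V j) ≤ 2·2 m₀ vol F`.  Hypotheses: hLFM, hLTY, hPCB, hLCC. -/
def StPCI : Prop := ∃ κ : ℝ, 1 ≤ κ ∧ PCIk κ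

/-! ## One class -/

/-- PPB (about 80 lines).  `PCIk κ` with `V j = ⋃ k ∈ Ico 0 K, UU F (s j) (m j) u η τ k`, `θ = η/2`, `Af`, `Bf` from LUF: `Af j z = k + lad u τ ≥ om u b l ≥ om u b 0` (LLM), `Bf j z = k - m j ≤ k + 1 - u ≤ Af j z`.
Hypotheses: hLLM, hLUF. -/
def StPPB : Prop :=
  ∀ κ : ℝ, 1 ≤ κ → PCIk κ → ∀ (u b l K : ℕ) (A σ : ℝ) (s : ℕ → ℝ) (m : ℕ → ℕ) (F : Set Pl) (D η : ℝ), 2 ≤ u →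
    1 ≤ b → l < 16 * u → 16 * u * b + l ≤ Mt u → 0 ≤ A → Slo u A σ s → (∀ j < 2 ^ u, u ≤ m j + 1) →
    BM F → Ctl D F → (2 : ℝ) ^ (-(6 * (u : ℤ))) ≤ D → 2000 * D ≤ η → η ≤ 1 →
    ∑ j ∈ Finset.range (2 ^ u), volume (F ∩ ⋃ k ∈ Ico (0 : ℤ) K,
      UU F (s j) (m j) u η (16 * u * b + l + 1) k) ≤
      ENNReal.ofReal (4 * M1 κ u b A σ D (η / 2)) * volume F

/-- PXR (about 150 lines), the ridge theorem at `x`, scale `k`.  `τ = 16ub + l + 1`, `a_i = k + om u (b-1) (16u-i)`.  PRT with `v j = 2^k c j`, `V j = UU .. τ k`, `Z j = CU .. τ k ⊆ V j`, `Af j = k + lad u τ`, `Bf j = k - m j` (constant), `θ = θ' = η/2` (LUF): `a_i = k + lad u t` for some `t ≤ τ` (LLM), so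
the cell of length `a_i` of a point of `CU` is rich with threshold `thr u η t ≥ η/2`, and `a_i ≤ k + lad u τ`; `k - m j ≤ k + 1 - u ≤ a_i`.  `|2^k c j| ≤ 2^(k+u)`.  `Hit .. x` (with the point `y ∈ CU`) gives `x ∈ Rg (s j) (v j) (2^(a_i - 1)) (CU ..) ..` for all `i` (`3·2^(k-u) < 2^(a_i - 1)`, as `om ≥ 1024`;
`2·2^(k-m) < 3·2^(k-m)`).  Hypotheses: hPT, hLLM, hLUF, hPRT. -/
def StPXR : Prop :=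
  ∃ C₄ : ℝ, 1 ≤ C₄ ∧ ∀ (u b l k : ℕ) (A σ : ℝ) (s : ℕ → ℝ) (c : ℕ → Pl) (m : ℕ → ℕ)
    (F : Set Pl) (D η m₁ : ℝ), 2 ≤ u → 1 ≤ b → l < 16 * u → 16 * u * b + l ≤ Mt u → 0 ≤ A →
    Slo u A σ s → (∀ j < 2 ^ u, ‖c j‖ ≤ (2 : ℝ) ^ u ∧ u ≤ m j + 1) → BM F → Ctl D F → 0 < D →
    0 < η → 1000 ≤ m₁ → 200 * ns u b A σ ≤ m₁ → 12800 * (10752 * 2 ^ u * D / η) ≤ m₁ →
    volume {x | m₁ ≤ ({j : ℕ | j < 2 ^ u ∧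
      Hit (s j) (c j) (m j) u k (CU F (s j) (m j) u η (16 * u * b + l + 1) k) x}.ncard : ℝ)} ≤
      ENNReal.ofReal (((1 / 2) ^ (16 * u) / (10752 * 2 ^ u * D / η) +
        u * C₄ * ns u b A σ * (10752 * 2 ^ u * D / η) / m₁ ^ 3) * (42 / η)) *
        ∑ j ∈ Finset.range (2 ^ u), volume (F ∩ UU F (s j) (m j) u η (16 * u * b + l + 1) k)

/-! ## Numbers -/

/-- PNA (about 60 lines).  `1/(m₁ η) ≤ u^10`, `2^b ≤ 2^(γu)`: the left side is `≤ 70·10^6 u^15 2^((1+γ)u)`, and `1 + γ < q`; `u^15 ≤ C 2^(εu)`.  Hypotheses: none. -/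
def StPNA : Prop :=
  ∀ q γ : ℝ, γ < q - 1 → ∃ C ε : ℝ, 0 < C ∧ 0 < ε ∧ ∀ (u b : ℕ) (η m₁ : ℝ), 1 ≤ u → Nm u η m₁ →
    (b : ℝ) ≤ γ * u → 70 / (m₁ * η) * (10 ^ 6 * (u : ℝ) ^ 5 * 2 ^ b) * (2 : ℝ) ^ u ≤
      C * (2 : ℝ) ^ ((q - ε) * u)

/-- PNB (about 80 lines).  `1/η ≤ u^10 m₁ ≤ u^10 2^u`, so `2000·8·2^(-qu) ≤ η` for large `u` (`q > 1`); `2^(-6u) ≤ 8·2^(-qu)` (`q < 2`); `12800·10752·2^u·8·2^(-qu)/η ≤ 2·10^9 u^10 2^((1-q)u) m₁ ≤ m₁` for large `u`.  Hypotheses: none. -/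
def StPNB : Prop :=
  ∀ q : ℝ, 1 < q → q < 2 → ∃ u₀ : ℕ, ∀ (u : ℕ) (η m₁ : ℝ), u₀ ≤ u → 1 ≤ u → Nm u η m₁ →
    2000 * (8 * (2 : ℝ) ^ (-(q * u))) ≤ η ∧
      (2 : ℝ) ^ (-(6 * (u : ℤ))) ≤ 8 * (2 : ℝ) ^ (-(q * u)) ∧
      12800 * (10752 * 2 ^ u * (8 * (2 : ℝ) ^ (-(q * u))) / η) ≤ m₁

/-- PNW (about 200 lines), the main numbers.  `W = min (10^6 u^5 2^b) K`, `n₁ = ns u b A σ ≤ 1 + A 2^(u - b/σ)` (`2^(b+1) u ≥ 2^b`), `(1 + x)^(3/2) ≤ 2 (1 + x^(3/2))`.  Case `b ≤ σu`: `W ≤ 10^6 u^5 2^b`, `2^b 2^(u - b/σ) = 2^(u + b(1-1/σ)) ≤ 2^(σu)`, so `W n₁ ≤ 10^6 u^5 (1 + A) 2^(σu)`;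
`W n₁^(3/2) ≤ 2·10^6 u^5 (2^b + A^(3/2) 2^(3u/2 + b(1-3/(2σ))))`, and the exponent is linear in `b`, `γu < b ≤ σu`, so at most the larger one of the two values at the ends: `(3/2 + γ - 3γ/(2σ)) u` and `σu`.  Case `b > σu`: `W ≤ K ≤ Cf 2^(σu)`, `n₁ ≤ 1 + A`.  Altogether the exponents of `2^u` are at most `σ` and
`3/2 + γ - 3γ/(2σ) + (1-q)/2 = 2 + γ - 3γ/(2σ) - q/2 < 2 + γ - 3γ/(2q) - q/2 < q` (`σ < q`, `Ex`); `u^5 ≤ C 2^(εu)`.  Hypotheses: none. -/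
def StPNW : Prop :=
  ∀ A σ q γ Cf : ℝ, 0 ≤ A → Ex σ q γ → 1 ≤ Cf →
    ∃ C ε : ℝ, 0 < C ∧ 0 < ε ∧ ∀ u b K : ℕ, 1 ≤ u → γ * u < b → (K : ℝ) ≤ Cf * (2 : ℝ) ^ (σ * u) →
    min (10 ^ 6 * (u : ℝ) ^ 5 * 2 ^ b) (K : ℝ) *
      (ns u b A σ + (ns u b A σ) ^ (3 / 2 : ℝ) * (2 : ℝ) ^ ((1 - q) / 2 * u)) ≤
      C * (2 : ℝ) ^ ((q - ε) * u)

/-- PNC (about 150 lines), few directions.  `n₁ = ns u b A σ ≥ 1`, so `m₁ ≤ 1000 n₁`; `70/(m₁ η) ≤ 70 u^10`, `1/η ≤ u^10 m₁ ≤ 1000 u^10 n₁`, `2^u D = 8·2^((1-q)u) ≤ 8`: `M1 κ .. (η/2) ≤ κ (n₁ + 16000 u^10 n₁ + 6000 u^11 n₁^(3/2) 2^((1-q)u/2)) ≤ 3·10^4 κ u^11 (n₁ + n₁^(3/2) 2^((1-q)u/2))`.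
PNW; the powers of `u` are `≤ C 2^(εu/2)`.  Hypotheses: hPNW. -/
def StPNC : Prop :=
  ∀ A σ q γ κ Cf : ℝ, 0 ≤ A → Ex σ q γ → 1 ≤ κ → 1 ≤ Cf → ∃ C ε : ℝ, 0 < C ∧
    0 < ε ∧ ∀ (u b K : ℕ) (η m₁ : ℝ), 1 ≤ u → Nm u η m₁ → γ * u < b → (K : ℝ) ≤ Cf * (2 : ℝ) ^ (σ * u) →
    (m₁ < 1000 ∨ m₁ < 200 * ns u b A σ) →
    70 / (m₁ * η) * min (10 ^ 6 * (u : ℝ) ^ 5 * 2 ^ b) (K : ℝ) *
      (4 * M1 κ u b A σ (8 * (2 : ℝ) ^ (-(q * u))) (η / 2)) ≤ C * (2 : ℝ) ^ ((q - ε) * u)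

/-- PND (about 200 lines), many directions.  `T = 10752·2^u D/η = 86016·2^((1-q)u)/η`, `n₁ = ns u b A σ ≥ 1`, `1/η ≤ u^10 m₁`, `m₁ ≤ 2^u`.  First term: `2^(-16u)/T·42/η ≤ 2^(-16u) 2^((q-1)u) ≤ 2^(-15u)`, `W ≤ K ≤ Cf 2^(2u)`, `n₁ ≤ (1 + A) 2^u`, so `M1 ≤ C u^11 2^(2u)`, product `≤ C u^11 2^(-11u) ≤ C`.
Second term: `T/(m₁³ η) = 86016·2^((1-q)u)/(η² m₁³) ≤ 86016 u^20 2^((1-q)u)/m₁`, and `(n₁/m₁) M1 ≤ κ (n₁²/m₁ + 16 u^10 n₁ 2^((1-q)u) + 6 u^11 n₁^(3/2) 2^((1-q)u/2)) ≤ 30 κ u^11 (n₁ + n₁^(3/2) 2^((1-q)u/2))` (`200 n₁ ≤ m₁`; `M1 ≤ κ (n₁ + 16·2^((1-q)u)/η + u √(8 n₁ 2^((1-q)u))·2/η)`).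
PNW (and one more factor `2^((1-q)u) ≤ 1`); the powers of `u` are `≤ C 2^(εu/2)`.  Hypotheses: hPNW. -/
def StPND : Prop :=
  ∀ A σ q γ κ C₄ Cf : ℝ, 0 ≤ A → Ex σ q γ → 1 ≤ κ → 1 ≤ C₄ → 1 ≤ Cf →
    ∃ C ε : ℝ, 0 < C ∧ 0 < ε ∧ ∀ (u b K : ℕ) (η m₁ : ℝ), 1 ≤ u → Nm u η m₁ → γ * u < b →
    (K : ℝ) ≤ Cf * (2 : ℝ) ^ (σ * u) → 1000 ≤ m₁ → 200 * ns u b A σ ≤ m₁ →
    ((1 / 2) ^ (16 * u) / (10752 * 2 ^ u * (8 * (2 : ℝ) ^ (-(q * u))) / η) +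
      u * C₄ * ns u b A σ * (10752 * 2 ^ u * (8 * (2 : ℝ) ^ (-(q * u))) / η) / m₁ ^ 3) * (42 / η) *
      min (10 ^ 6 * (u : ℝ) ^ 5 * 2 ^ b) (K : ℝ) *
      (4 * M1 κ u b A σ (8 * (2 : ℝ) ^ (-(q * u))) (η / 2)) ≤ C * (2 : ℝ) ^ ((q - ε) * u)

/-! ## The core estimate -/

/-- PCT (about 300 lines), one class.  `D = 8·2^(-qu)`.  Choice of `γ`: `g = (q²+q-3)/(2q) > 0`, `δ = min((q-1)/2, g)`, `γ = q - 1 - δ`: `2 + γ - 3γ/(2q) = q - 1/2 + 3/(2q) + δ (3/(2q) - 1)`, `δ (3/(2q) - 1) ≤ δ/2 < g` and `3q/2 - (q - 1/2 + 3/(2q)) = g`, so `Ex σ q γ`.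
If `τ = 0`: LXM for every `k`, LPA with `b = 0` for every `j`, `vol(F ∩ ..) ≤ vol F`, PNA (`b = 0`).  Otherwise `τ = 16ub + l + 1`, `l < 16u`, `b ≤ 3u + 1`.  If `b ≤ γu` (then `b ≤ u`, so `τ ≤ Mt u`): the same with this `b` (LLM).  If `b > γu` (so `b ≥ 1`):
`∑_{k<K} ∑_j vol(F ∩ UU .. k) ≤ min(10^6 u^5 2^b, K) ∑_j vol(F ∩ ⋃ ..)`: the bound by `K` is trivial (each set is in the union), the other one is LPA if `τ ≤ Mt u`, and if `τ = Mt u + 1` then `b = 3u+1` and `K ≤ Cf 2^(2u) ≤ 10^6 u^5 2^b` (large `u`); then PPB.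
If `m₁ < 1000` or `m₁ < 200 ns`: LXM and PNC; otherwise PXR and PND.  The conditions `2000 D ≤ η`, `2^(-6u) ≤ D`, `12800 (..) ≤ m₁` are PNB; `‖c j‖ ≤ Cf ≤ 2^u` for large `u`.  `κ` is the constant of PCI (`PCIk κ`), `C₄` the one of PXR.  `K ≤ Cf 2^(2u) ≤ 2^(4u)` for large `u`.
Hypotheses: hLLM, hPCI, hLPA, hPPB, hLXM, hPXR, hPNA, hPNB, hPNC, hPND. -/
def StPCT : Prop :=
  ∀ A σ q Cf : ℝ, 0 ≤ A → 1 < σ → σ < q → q < 2 → 3 < q ^ 2 + q → 1 ≤ Cf →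
    ∃ (u₀ : ℕ) (C ε : ℝ), 0 < C ∧ 0 < ε ∧
    ∀ (u K τ : ℕ) (s : ℕ → ℝ) (c : ℕ → Pl) (m : ℕ → ℕ) (F : Set Pl) (η m₁ : ℝ), u₀ ≤ u → 2 ≤ u →
      Slo u A σ s → (∀ j < 2 ^ u, ‖c j‖ ≤ Cf ∧ u ≤ m j + 1) → (K : ℝ) ≤ Cf * (2 : ℝ) ^ (σ * u) →
      BM F → Ctl (8 * (2 : ℝ) ^ (-(q * u))) F → Nm u η m₁ → τ ≤ Mt u + 1 →
      ∑ k ∈ Finset.range K, volume {x | m₁ ≤ ({j : ℕ | j < 2 ^ u ∧
        Hit (s j) (c j) (m j) u k (CU F (s j) (m j) u η τ k) x}.ncard : ℝ)} ≤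
        ENNReal.ofReal (C * (2 : ℝ) ^ ((q - ε) * u)) * volume F

/-- PCR (about 200 lines), the core estimate.  Let `v_j = Y .. x ∈ [0,1]` (YB), `∑ v_j ≥ u^(-2)`.  The `j` with `v_j < u^(-2)/(2N)` contribute at most half; for the others `2^(-i-1) < v_j ≤ 2^(-i)` with `i ≤ 2u` (`u` large), so for some `i ≤ 2u`, with `η' = 2^(-i-1)`:
`#{j : η' ≤ v_j} ≥ m' := max(1, u^(-4)/η')` (`u` large: otherwise `∑ v_j < u^(-2)/2 + ∑_i 2η' m'_i`, where the `i` with no `j` do not count), and `η' ≥ u^(-2)/(4N)`.  LGY: these `j` satisfy `Hit .. {y | Rich F .. (η'/18) y} x`; put `η = η'/18`; LPG: for some `τ ≤ Mt u + 1`,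
`#{j : Hit .. (CU .. η τ k) x} ≥ m₁ := m'/(Mt u + 2)`.  `Nm u η m₁`: `Mt u + 2 ≤ 66u²`; `m₁ η ≥ u^(-4)/(18·66 u²) ≥ u^(-10)`, `m₁ ≥ 1/(66u²) ≥ u^(-3)`, `m₁ ≤ max(1, 4 u^(-2) N) ≤ N`.  PCT for each of the `2u+1` values `η` (with `η' ≥ u^(-2)/(4N)`) and `Mt u + 2` values `τ`; decrease `ε`.
(Exactly as LCR in St2.)  Hypotheses: hYB, hLGY, hLPG, hPCT. -/
def StPCR : Prop :=
  ∀ A σ q Cf : ℝ, 0 ≤ A → 1 < σ → σ < q → q < 2 → 3 < q ^ 2 + q → 1 ≤ Cf →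
    ∃ (u₀ : ℕ) (C ε : ℝ), 0 < C ∧ 0 < ε ∧
    ∀ (u K : ℕ) (s : ℕ → ℝ) (c : ℕ → Pl) (m : ℕ → ℕ) (F : Set Pl), u₀ ≤ u →
      Slo u A σ s → (∀ j < 2 ^ u, ‖c j‖ ≤ Cf ∧ u ≤ m j + 1) → (K : ℝ) ≤ Cf * (2 : ℝ) ^ (σ * u) →
      BM F → Ctl (8 * (2 : ℝ) ^ (-(q * u))) F →
      ∑ k ∈ Finset.range K, volume {x | 1 / (u : ℝ) ^ 2 ≤ ∑ j ∈ Finset.range (2 ^ u),
        Y (s j) (c j) (m j) (1 / (2 : ℝ) ^ u) k (F.indicator 1) x} ≤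
        ENNReal.ofReal (C * (2 : ℝ) ^ ((q - ε) * u)) * volume F

end Pool.Agent.Helper20.RL
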