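import Pool.Agent.Helper20.RL.St4
import Pool.Agent.Helper20.RL.St3

/-!
# Project RL (MP_cb927e_an): interface statements, part 5 (sharp error bounds, restricted weak type, the theorem)

These statements replace LCS, LON, LDF, LHI, LRW, LMB, LMA of St3 (`CoreE` is not used any more).  `N = 2^u`.
-/

set_option autoImplicit false

open MeasureTheory Set Filter Topology
open scoped ENNReal RealInnerProductSpace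

namespace Pool.Agent.Helper20.RL

open Pool.Agent.Helper68.LM (Pl BB Bd Av HL ft fm DQ)
open Pool.Agent.Helper20.RG
open Pool.Agent.Helper61.Lacunary (ConditionG LpBounded)

/-! ## Sharp error bounds -/

/-- PSP (about 150 lines).  `x_j = ‖ξ‖ 2^(-m' j)`, `y_j = 2^(-u) |⟪E (s j), ξ⟫|`.  The `j` with `f j ≤ 2^(-u)` contribute at most one.  For the others `2^(-u) < f j ≤ x_j` and `y_j ≤ 1/f j < 2^u`; let `a_j ≤ u` be the least natural number with `2^(-a) ≤ x_j`, `b_j ≤ u` the least one with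
`y_j ≤ 2^b`: then `f j ≤ 4·2^(-a_j-b_j)` (`x_j < 2^(1-a_j)` if `a_j > 0`, `y_j > 2^(b_j-1)` if `b_j > 0`; the four cases use the four bounds for `f j`).  For given `a`, `b` the number of these `j` is at most `C (1 + 2^(a+b))`: SC with `y = 2^(-a)` and `ℓ = 2^(a-b-u)` (`ℓ |⟪E, ξ⟫| ≤ 2^a`
means `y_j ≤ 2^b`, and `1/(2^u ℓ y²) = 2^(a+b)`).  So the sum is at most `1 + ∑_{a,b ≤ u} 4·2^(-a-b)·2C 2^(a+b) = 1 + 8C (u+1)²`.  Hypotheses: hSC. -/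
def StPSP : Prop :=
  ∀ C₀ : ℝ, 0 < C₀ → ∃ C : ℝ, 0 < C ∧ ∀ (u : ℕ) (s : ℕ → ℝ) (c : ℕ → Pl) (m m' : ℕ → ℕ) (R : ℝ) (K : ℕ)
    (A σ : ℝ), Sys u s c m m' C₀ R K A σ → ∀ (ξ : Pl) (f : ℕ → ℝ), ξ ≠ 0 →
      (∀ j < 2 ^ u, 0 ≤ f j ∧ f j ≤ 1 ∧ f j ≤ ‖ξ‖ * (2 : ℝ) ^ (-(m' j : ℤ)) ∧
        f j * (1 / (2 : ℝ) ^ u * |⟪E (s j), ξ⟫|) ≤ 1 ∧
        f j * (1 / (2 : ℝ) ^ u * |⟪E (s j), ξ⟫|) ≤ ‖ξ‖ * (2 : ℝ) ^ (-(m' j : ℤ))) →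
      ∑ j ∈ Finset.range (2 ^ u), f j ≤ C * ((u : ℝ) + 1) ^ 2

/-- PE2 (about 120 lines).  `‖a - b‖ ≤ ‖a‖ + ‖b‖`; the sum of `‖Zh (2^W)‖` is at most `2C` by U1 (`ℓ = 2^W ≥ 1`).  `Zh s c m m' ℓ ξ = exp(..) sinc(πℓ⟪E, ξ⟫) (κ_m ξ - κ_m' ξ)` with `κ_m ξ = sinc(2π 2^(-m) ξ 0) sinc(2π 2^(-m) ξ 1)`; `|κ_m - κ_m'| ≤ 2` and `≤ |1 - κ_m| + |1 - κ_m'| ≤ 8π 2^(-m') ‖ξ‖`
(`m' ≤ m`), `|sinc t| ≤ 1`, `|t sinc t| ≤ 1` (SINC).  So `f j = ‖Zh (1/2^u)‖/100` satisfies the hypotheses of PSP.  Hypotheses: hPT, hSINC, hU1, hPSP. -/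
def StPE2 : Prop :=
  ∀ C₀ : ℝ, 0 < C₀ → ∃ C : ℝ, 0 < C ∧ ∀ (u : ℕ) (s : ℕ → ℝ) (c : ℕ → Pl) (m m' : ℕ → ℕ) (R : ℝ) (K : ℕ)
    (A σ : ℝ), Sys u s c m m' C₀ R K A σ → ∀ (W : ℕ) (ξ : Pl), ξ ≠ 0 →
      ∑ j ∈ Finset.range (2 ^ u), ‖Zh (s j) (c j) (m j) (m' j) (1 / (2 : ℝ) ^ u) ξ -
          Zh (s j) (c j) (m j) (m' j) ((2 : ℝ) ^ W) ξ‖ ≤ C * ((u : ℝ) + 1) ^ 2

/-- PE1 (about 300 lines), the first sum of E1 again (compare `Pool.Agent.Helper13.RG.M_E1`, most of the proof is there).  `ℓ = 2^(-u)`, `r = ‖ξ‖`, `β = ⟪E (s j), ξ⟫`, `b = |β|`, `ε = r 2^(-m)`, `e` the difference.  PSP with `f j = ‖e_j‖/C`: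
(a) `‖e‖ ≤ 2`.  (b) `‖e‖ ≤ C ε` and (d) `‖e‖ ℓ b ≤ C`: E1 (docstring in RG/St1).  (e) `‖e‖ ℓ b ≤ C ε`: if `ε > ℓb/8` this follows from (a); if `ℓ b ≤ 1` from (b).  Let `ε ≤ ℓb/8`, `ℓ b > 1`, `G x = exp(-2πi⟪x, ξ⟫)`, `P, Q = c ∓ (ℓ/2) E s`, `P₁, Q₁ = c₁ ∓ (ℓ/4) E s₁`, `P₂, Q₂ = c₂ ∓ (ℓ/4) E s₂`, `β_i = ⟪E s_i, ξ⟫`:
`exp(-2πi⟪c,ξ⟫) sinc(πℓβ) = (G P - G Q)/(2πiℓβ) = ½ [(G P - G c)/(πiℓβ) + (G c - G Q)/(πiℓβ)]` and `exp(-2πi⟪c₁,ξ⟫) sinc(πℓβ₁/2) = (G P₁ - G Q₁)/(πiℓβ₁)`, and the same for `c₂`.  `P₁ - P` and `Q₁ - c` have first coordinate `0` and second coordinate at most `(5/4) 2^(-m)` in absolute value, so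
`|G P - G P₁|, |G c - G Q₁| ≤ 8ε`; `|β₁ - β| ≤ |s₁ - s| r ≤ ε/ℓ`, `|β₁| ≥ 7b/8`.  So the first halves differ by at most `16ε/(πℓb) + 2 |β₁ - β|/(πℓ |β||β₁|) ≤ 16ε/(πℓb) + (16/7π) ε/(ℓb)² ≤ 7ε/(ℓb)`, similarly the second halves, and `‖e‖ ≤ 7ε/(ℓb)` (`|κ_m| ≤ 1`).
Hypotheses: hPT, hSINC, hPSP. -/
def StPE1 : Prop :=
  ∀ C₀ : ℝ, 0 < C₀ → ∃ C : ℝ, 0 < C ∧ ∀ (u : ℕ) (s : ℕ → ℝ) (c : ℕ → Pl) (m : ℕ → ℕ) (R : ℝ) (K : ℕ)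
    (A σ : ℝ) (s₁ s₂ : ℕ → ℝ) (c₁ c₂ : ℕ → Pl), Sys u s c m m C₀ R K A σ →
      (∀ j < 2 ^ u, |s₁ j| ≤ 1 ∧ |s₂ j| ≤ 1 ∧
        |s₁ j - s j| ≤ (2 : ℝ) ^ (-(m j : ℤ)) * (2 : ℝ) ^ u ∧
        |s₂ j - s j| ≤ (2 : ℝ) ^ (-(m j : ℤ)) * (2 : ℝ) ^ u ∧
        (c₁ j) 0 = (c j) 0 - 1 / (4 * (2 : ℝ) ^ u) ∧ (c₂ j) 0 = (c j) 0 + 1 / (4 * (2 : ℝ) ^ u) ∧
        |(c₁ j) 1 - ((c j) 1 - s j / (4 * (2 : ℝ) ^ u))| ≤ (2 : ℝ) ^ (-(m j : ℤ)) ∧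
        |(c₂ j) 1 - ((c j) 1 + s j / (4 * (2 : ℝ) ^ u))| ≤ (2 : ℝ) ^ (-(m j : ℤ))) →
      ∀ ξ : Pl, ξ ≠ 0 →
      ∑ j ∈ Finset.range (2 ^ u), ‖(Yh (s₁ j) (c₁ j) (m j) (1 / (2 * (2 : ℝ) ^ u)) ξ +
          Yh (s₂ j) (c₂ j) (m j) (1 / (2 * (2 : ℝ) ^ u)) ξ) / 2 -
          Yh (s j) (c j) (m j) (1 / (2 : ℝ) ^ u) ξ‖ ≤ C * ((u : ℝ) + 1) ^ 2

/-- PER (about 320 lines).  Copy of the proof of ERR (`Pool.Agent.Helper74.RG.M_ERR`) with the first bounds of E1, E2 replaced by PE1 (level `u - 1`), PE2: L2A with `A = C u²`, `B = C 2^(u-1)` and with `A = C (u+1)²`, `B = C 2^u (W+u+1)`, divided by `4^(u-1)`, `4^u`.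
(E1, E2 are still needed for their second clauses.)  Hypotheses: hPT, hYB, hMM, hSYS, hCHI, hE1, hE2, hPE1, hPE2, hL2A. -/
def StPER : Prop :=
  ∀ (φ τ : ℝ → ℝ) (A σ : ℝ) (c : Pl), Graph φ τ → Gap A σ τ → 0 < A → 0 < σ → ∃ C : ℝ, 0 < C ∧
    ∀ u W : ℕ, 2 ≤ u → ∀ g : Pl → ℝ, BB g →
      ∑' k : ℤ, ∫⁻ x, ‖Sa c φ τ u k g x - Sa c φ τ (u - 1) k g x -
        (1 / (2 : ℝ) ^ u) * ∑ j ∈ Finset.range (2 ^ u), Z (τ (tm u j)) (ce c φ u j) (mm τ u j)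
          (mm τ (u - 1) (j / 2)) ((2 : ℝ) ^ W) k g x‖ₑ ^ 2 ≤
      ENNReal.ofReal (C * (2 : ℝ) ^ (-(u : ℝ)) * ((u : ℝ) + 1) ^ 2 * (W + u + 1)) * ∫⁻ x, ‖g x‖ₑ ^ 2

/-- PDF (about 80 lines).  PER and TOP with `W = 0`, `‖a + b‖² ≤ 2‖a‖² + 2‖b‖²`; `KA A σ u = u + 1 + ⌈(A 2^u)^σ⌉ ≤ u + 2 + A^σ 2^(σu)`, and `4^(-u) (2u + 3) ≤ 3 (u+1) 2^(-u)`.  Hypotheses: hPER, hTOP. -/
def StPDF : Prop :=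
  ∀ (φ τ : ℝ → ℝ) (A σ : ℝ) (c : Pl), Graph φ τ → Gap A σ τ → 0 < A → 0 < σ → ∃ C : ℝ, 0 < C ∧
    ∀ u : ℕ, 2 ≤ u → ∀ g : Pl → ℝ, BB g →
      ∑' k : ℤ, ∫⁻ x, ‖Sa c φ τ u k g x - Sa c φ τ (u - 1) k g x‖ₑ ^ 2 ≤
      ENNReal.ofReal (C * (((u : ℝ) + 1) ^ 3 * (2 : ℝ) ^ (-(u : ℝ)) + (2 : ℝ) ^ ((σ - 2) * u))) *
        ∫⁻ x, ‖g x‖ₑ ^ 2

/-- PHI (about 200 lines).  `δ = min(1/8, (2-σ)/4)`, `c = (1 - 2^(-δ))/32`: if all the differences (for the scale `k`) are at most `c 2^(-δi) Λ` in absolute value then the sum is at most `Λ/16`.  Otherwise Chebyshev: the measure is at most `∑_i ∑_k (c 2^(-δi) Λ)^(-2) ∫ |..|²`, and by PDF (`u + i + 1 ≥ 2`)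
`≤ C Λ^(-2) ∑_i 2^(2δi) ((u+i+2)³ 2^(-(u+i+1)) + 2^((σ-2)(u+i+1))) vol E ≤ C' Λ^(-2) ((u+1)³ 2^(-u) + 2^((σ-2)u)) vol E`.  `Λ^(-2) = Λ^(-q) Λ^(-(2-q)) ≤ Λ^(-q) 2^((2-q)u)`, and `(u+1)³ 2^((1-q)u) ≤ C''` as `q > 1`, `2^((2-q+σ-2)u) ≤ 1` as `σ < q`.  Hypotheses: hYB, hSYS, hPDF. -/
def StPHI : Prop :=
  ∀ (φ τ : ℝ → ℝ) (A σ q : ℝ) (c : Pl), Graph φ τ → Gap A σ τ → 0 < A → 1 < σ → σ < q → q < 2 →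
    ∃ C : ℝ, 0 < C ∧ ∀ (u : ℕ) (Λ : ℝ) (E : Set Pl), 1 ≤ u → (2 : ℝ) ^ (-(u : ℤ)) ≤ Λ → BM E →
      volume {x | ∃ k : ℤ, ENNReal.ofReal (Λ / 16) <
        ∑' i : ℕ, ‖Sa c φ τ (u + i + 1) k (E.indicator 1) x - Sa c φ τ (u + i) k (E.indicator 1) x‖ₑ} ≤
      ENNReal.ofReal (C * Λ ^ (-q)) * volume E

/-! ## The first level -/

/-- PCS (about 100 lines), the core estimate at the base scale `t`.  Apply PCR to `F' = {z | 2^t z ∈ F}`: `vol(F' ∩ Sq y (2^k)) = 4^(-t) vol(F ∩ Sq (2^t y) (2^(k+t)))`, `vol F' = 4^(-t) vol F`, and `{x | .. ≤ ∑ Y .. (t + k) 1_F x}` is mapped to the set for `F'`, scale `k`, by `x ↦ 2^(-t) x` (LRS).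
Hypotheses: hLRS, hPCR. -/
def StPCS : Prop :=
  ∀ A σ q Cf : ℝ, 0 ≤ A → 1 < σ → σ < q → q < 2 → 3 < q ^ 2 + q → 1 ≤ Cf →
    ∃ (u₀ : ℕ) (C ε : ℝ), 0 < C ∧ 0 < ε ∧
    ∀ (u K : ℕ) (t : ℤ) (s : ℕ → ℝ) (c : ℕ → Pl) (m : ℕ → ℕ) (F : Set Pl), u₀ ≤ u →
      Slo u A σ s → (∀ j < 2 ^ u, ‖c j‖ ≤ Cf ∧ u ≤ m j + 1) → (K : ℝ) ≤ Cf * (2 : ℝ) ^ (σ * u) →
      BM F → (∀ (y : Pl) (k' : ℤ), t ≤ k' → volume (F ∩ Sq y ((2 : ℝ) ^ k')) ≤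
        ENNReal.ofReal (8 * (2 : ℝ) ^ (-(q * u)) * (4 : ℝ) ^ k')) →
      ∑ k ∈ Finset.range K, volume {x | 1 / (u : ℝ) ^ 2 ≤ ∑ j ∈ Finset.range (2 ^ u),
        Y (s j) (c j) (m j) (1 / (2 : ℝ) ^ u) (t + (k : ℤ)) (F.indicator 1) x} ≤
        ENNReal.ofReal (C * (2 : ℝ) ^ ((q - ε) * u)) * volume F

/-- PON (about 250 lines), the first level.  `D = 2^(-qu)`, `I` least with `K + 3 ≤ 2^I`: `2^I ≤ 2(K+3) ≤ (2Cf + 6) 2^(σu)`, `I ≤ 3u` for large `u`.  LAP (`Cf ↦ Cf + 10`, `R = Cf`) summed over `j`: `1/8 ≤ 2^u D + ∑_{i ≤ I} ∑_j Y .. 1_(Fa E D i (k/2^i)) x` and `2^(u-qu) ≤ 1/16` (`q > 1`, `u` large), so for some `i ≤ I`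
`∑_j Y .. ≥ 1/(16 (3u+1)) ≥ 1/u²` (`u ≥ 50`).  So the set is contained in the union over `i ≤ I`, `l ∈ ℤ`, `k = l 2^i + k'`, `0 ≤ k' < 2^i`, of `{x | 1/u² ≤ ∑_j Y .. k 1_(Fa E D i l) x}`.  PCS with `t = l 2^i`, `K ↦ 2^i`, `Cf ↦ 2Cf + 6`, `F = Fa E D i l` (LAM: density `4D`):
`≤ C 2^((q-ε)u) vol(Fa E D i l)`; sum over `l` (LAM) and `i`: `(3u+1)·4 C 2^((q-ε)u) vol E ≤ C' 2^(qu) vol E`.  Hypotheses: hLAM, hLAP, hPCS. -/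
def StPON : Prop :=
  ∀ A σ q Cf : ℝ, 0 ≤ A → 1 < σ → σ < q → q < 2 → 3 < q ^ 2 + q → 1 ≤ Cf → ∃ (u₀ : ℕ) (C : ℝ), 0 < C ∧
    ∀ (u K : ℕ) (s : ℕ → ℝ) (c : ℕ → Pl) (m : ℕ → ℕ) (E : Set Pl), u₀ ≤ u → Slo u A σ s →
      (∀ j < 2 ^ u, ‖c j‖ ≤ Cf ∧ u ≤ m j + 1 ∧ m j ≤ K) → (K : ℝ) ≤ Cf * (2 : ℝ) ^ (σ * u) →
      BM E →
      volume {x | Loc (Cf + 10) ((2 : ℝ) ^ (-(q * u))) (E.indicator 1) x ∧ ∃ k : ℤ,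
        1 / 8 ≤ ∑ j ∈ Finset.range (2 ^ u),
          Y (s j) (c j) (m j) (1 / (2 : ℝ) ^ u) k (E.indicator 1) x} ≤
        ENNReal.ofReal (C * (2 : ℝ) ^ (q * u)) * volume E

/-! ## Restricted weak type and the theorem -/

/-- PRW (about 300 lines), restricted weak type.  `arc c φ` has mass one, so nothing to prove for `Λ ≥ 1`; `ofReal (Av (arc c φ) (2^k) 1_E x) = ∫⁻ 1_E (x - 2^k y) d(arc)`.  Let `Λ < 1`, `2^(-u) ≤ Λ < 2^(1-u)`, `u ≥ 1`.  `R = ‖c‖ + |φ 0| + 3`, `Cf ≥ R`, `KA A σ v ≤ Cf 2^(σv)` for all `v ≥ 1`, `ρ = 2 (Cf + 10)`; `u₀` from PON.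
(a) `u ≥ u₀`: discard `{ofReal (2^(-qu)) < HL ρ 1_E}` (`Helper68.LM.StHLW`, proved: `≤ C 2^(qu) vol E ≤ C (2/Λ)^q vol E`) and the set of PHI.  For a.e. other `x` with `ofReal Λ < ⨆`: DOM (`u₀ ↦ u`): `Λ < 4 Sa u k 1_E x + Λ/4` for some `k`, so `2^u Sa u k 1_E x > (3/16) 2^u Λ ≥ 1/8`, that is `1/8 ≤ ∑_j Y (τ (tm u j)) (ce c φ u j) (mm τ u j) (1/2^u) k 1_E x`,
and `Loc (Cf + 10) (2^(-qu)) 1_E x` (GD): PON applies (`Slo`: `Sys.slope`, `Sys.sep`; `‖ce‖ ≤ R`; MM: `u ≤ mm + 1`, `mm ≤ KA A σ u`), `≤ C 2^(qu) vol E`.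
(b) `u < u₀`: use the level `u₀` (`2^(-u₀) ≤ Λ`): discard the set of PHI for `u₀` and `{ofReal (ε Λ) < HL ρ 1_E}`, `ε = 4^(-KA A σ u₀)/32` (`≤ C/(εΛ) vol E ≤ C' Λ^(-q) vol E` as `Λ < 1 < q`).  For a.e. other `x`: HLY: `Sa u₀ k 1_E x ≤ 4^(KA) ε Λ ≤ Λ/32`, so by DOM all `Av .. ≤ Λ/8 + Λ/4 < Λ`.
Hypotheses: hPT, hMEA, hYB, hMM, hSYS, hGD, hDOM, hHLY, hPHI, hPON. -/
def StPRW : Prop :=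
  ∀ (φ τ : ℝ → ℝ) (A σ q : ℝ) (c : Pl), Graph φ τ → Gap A σ τ → 0 < A → 1 < σ → σ < q →
    q < 2 → 3 < q ^ 2 + q → RWm (arc c φ) q

/-- PMB (about 60 lines).  `arc c φ` is the image of Lebesgue measure on `[0,1]` under `t ↦ c + pt t (φ t)`, `|φ t - φ 0| ≤ |t|` (Graph), so `Bd (‖c‖ + |φ 0| + 3) 1 (arc c φ)`.  PRW and LIP.  Hypotheses: hPT, hPRW, hLIP. -/
def StPMB : Prop :=
  ∀ (φ τ : ℝ → ℝ) (A σ q p : ℝ) (c : Pl), Graph φ τ → Gap A σ τ → 0 < A → 1 < σ → σ < q →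
    q < 2 → 3 < q ^ 2 + q → q < p → MaxB (arc c φ) p

/-- PMA (about 130 lines), the theorem.  As the proof of `StMAI` of project RG (module `Pool.Agent.Helper71.RG.M_MAI`, see `Pool.Agent.Helper20.RG.Asm`).  Choose `max s 1 < σ < q < p` with `3 < q² + q` (continuity of `q² + q` at `p`; `q < 2` as `p ≤ 2`).  COV; for every piece CAP gives `Gap A s` for `τ (ℓ ·)`, hence `Gap A' σ`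
(`i^(-1/s) ≤ i^(-1/σ)` for `i ≥ 1`), and `Graph (φ (ℓ ·)/ℓ) (τ (ℓ ·))`; PMB gives `MaxB (arc ..) p`, then RES, FIN.  Hypotheses: hPT, hCOV, hCAP, hPMB, hRES, hFIN. -/
def StPMA : Prop :=
  ∀ (Ω : Set Pl) (p s : ℝ), IsOpen Ω → Convex ℝ Ω → Bornology.IsBounded Ω → (0 : Pl) ∈ Ω →
    3 < p ^ 2 + p → 1 < p → p ≤ 2 → 0 < s → s < p → ConditionG Ω s → LpBounded Ω p

end Pool.Agent.Helper20.RL
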